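import Pool.Agent.H35Z.Cuf.Scheme

/-!
# Complete ordered fields of a model inject in the power set of the natural numbers
-/

set_option linter.unreachableTactic false
set_option linter.unusedTactic false
set_option linter.unusedVariables false
set_option linter.unusedSectionVars false

namespace Pool.Agent.H35Z.Cuf

open FirstOrder FirstOrder.Language Pool.Agent.Helper672.ZFA

universe u

variable {M : Type u} [L.Structure M] [hM : IsModel M]

/-- A pairing function. -/
noncomputable def pr (a b : INat M) : INat M := (a + b) * (a + b) + a

theorem intF_pr {γ : Type u} [ITy M γ] {a b : γ → INat M} (ha : IntF M a) (hb : IntF M b) :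
    IntF M (fun c => pr (a c) (b c)) := by
  unfold pr
  (repeat' (with_reducible (first | exact IntF.id | exact IntF.fst' | exact IntF.snd' | exact IntF.const _ | exact Int.const _ | assumption | apply IntF.add | apply IntF.mul | apply Int.and | apply Int.or | apply Int.imp | apply Int.iff | apply Int.ne | apply Int.not | apply Int.all | apply Int.ex | apply Int.unique | apply Int.eq | apply Int.mem | apply Int.subset | apply Int.fin | apply Int.ltN | apply Int.leN | apply IntF.fst | apply IntF.snd | apply IntF.app | apply IntF.sep | apply IntF.lam | apply IntF.insert | apply IntF.singleton | apply IntF.union | apply IntF.inter | apply IntF.sdiff | apply IntF.isUnion | apply IntF.iimage | apply IntF.succ | apply IntF.ite | apply IntF.the | apply IntF.irec)))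

theorem pr_aux {a b a' b' c : INat M} (h : pr a b = pr a' b') (hc : a' + b' = a + b + c) :
    a = a' ∧ b = b' := by
  unfold pr at h
  rcases INat.eq_zero_or_succ c with rfl | ⟨d, rfl⟩
  · rw [add_zero] at hc
    rw [hc] at h
    have h1 : a = a' := add_left_cancel h
    subst h1
    exact ⟨rfl, (add_left_cancel hc).symm⟩
  · exfalso
    rw [hc, INat.succ_eq] at h
    have h1 : (a + b) * (a + b) + a + 0 = (a + b) * (a + b) + a +
        ((a + 2 * d * a + 2 * (d + 1) * b + d * d + 2 * d + a') + 1) := by
      rw [add_zero]
      refine h.trans ?_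
      ring
    have h2 := add_left_cancel h1
    rw [← INat.succ_eq] at h2
    exact INat.succ_ne_zero _ h2.symm

theorem pr_inj {a b a' b' : INat M} (h : pr a b = pr a' b') : a = a' ∧ b = b' := by
  rcases INat.total (a + b) (a' + b') with ⟨c, hc⟩ | ⟨c, hc⟩
  · exact pr_aux h hc
  · obtain ⟨h1, h2⟩ := pr_aux h.symm hc
    exact ⟨h1.symm, h2.symm⟩

variable {β : Type u} [ITy M β] [Field β] [LinearOrder β] [IsStrictOrderedRing β]
  [IAdd M β] [IMul M β] [ILE M β]

theorem int_le {γ : Type u} [ITy M γ] {f g : γ → β} (hf : IntF M f) (hg : IntF M g) :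
    Int M (fun c => f c ≤ g c) := Helper672.ZFA.Int.le hf hg

theorem int_lt {γ : Type u} [ITy M γ] {f g : γ → β} (hf : IntF M f) (hg : IntF M g) :
    Int M (fun c => f c < g c) := Helper672.ZFA.Int.lt hf hg

variable (β) in
/-- The natural numbers of the model inside a field of the model. -/
noncomputable def emb (n : INat M) : β := irec 0 (fun _ x => x + 1) n

theorem intF_emb {γ : Type u} [ITy M γ] {n : γ → INat M} (hn : IntF M n) :
    IntF M (fun c => emb β (n c)) := by
  unfold emb
  (repeat' (with_reducible (first | exact IntF.id | exact IntF.fst' | exact IntF.snd' | exact IntF.const _ | exact Int.const _ | assumption | apply IntF.add | apply Int.and | apply Int.or | apply Int.imp | apply Int.iff | apply Int.ne | apply Int.not | apply Int.all | apply Int.ex | apply Int.unique | apply Int.eq | apply Int.mem | apply Int.subset | apply Int.fin | apply Int.ltN | apply Int.leN | apply IntF.fst | apply IntF.snd | apply IntF.app | apply IntF.sep | apply IntF.lam | apply IntF.insert | apply IntF.singleton | apply IntF.union | apply IntF.inter | apply IntF.sdiff | apply IntF.isUnion | apply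 IntF.iimage | apply IntF.succ | apply IntF.ite | apply IntF.the | apply IntF.irec)))

theorem emb_zero : emb β (0 : INat M) = 0 := irec_zero (by (repeat' (with_reducible (first | exact IntF.id | exact IntF.fst' | exact IntF.snd' | exact IntF.const _ | exact Int.const _ | assumption | apply IntF.add | apply Int.and | apply Int.or | apply Int.imp | apply Int.iff | apply Int.ne | apply Int.not | apply Int.all | apply Int.ex | apply Int.unique | apply Int.eq | apply Int.mem | apply Int.subset | apply Int.fin | apply Int.ltN | apply Int.leN | apply IntF.fst | apply IntF.snd | apply IntF.app | apply IntF.sep | apply IntF.lam | apply IntF.insert | apply IntF.singleton | apply IntF.union | apply IntF.inter | apply IntF.sdiff | apply IntF.isUnion | apply IntF.iimage | apply IntF.succ | apply IntF.ite | apply IntF.the | apply IntF.irec))))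

theorem emb_succ (n : INat M) : emb β n.succ = emb β n + 1 := irec_succ (by (repeat' (with_reducible (first | exact IntF.id | exact IntF.fst' | exact IntF.snd' | exact IntF.const _ | exact Int.const _ | assumption | apply IntF.add | apply Int.and | apply Int.or | apply Int.imp | apply Int.iff | apply Int.ne | apply Int.not | apply Int.all | apply Int.ex | apply Int.unique | apply Int.eq | apply Int.mem | apply Int.subset | apply Int.fin | apply Int.ltN | apply Int.leN | apply IntF.fst | apply IntF.snd | apply IntF.app | apply IntF.sep | apply IntF.lam | apply IntF.insert | apply IntF.singleton | apply IntF.union | apply IntF.inter | apply IntF.sdiff | apply IntF.isUnion | apply IntF.iimage | apply IntF.succ | apply IntF.ite | apply IntF.the | apply IntF.irec)))) n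

theorem arch (hc : ∀ s : IPow M β, (∃ x, x ∈ s) → BddAbove {x | x ∈ s} →
    ∃ x, IsLUB {x | x ∈ s} x) (x : β) : ∃ n : INat M, x < emb β n := by
  by_contra h
  push Not at h
  have hi : Int M (fun y : β => ∃ n : INat M, emb β n = y) := by (repeat' (with_reducible (first | exact IntF.id | exact IntF.fst' | exact IntF.snd' | exact IntF.const _ | exact Int.const _ | assumption | apply intF_emb | apply Int.and | apply Int.or | apply Int.imp | apply Int.iff | apply Int.ne | apply Int.not | apply Int.all | apply Int.ex | apply Int.unique | apply Int.eq | apply Int.mem | apply Int.subset | apply Int.fin | apply Int.ltN | apply Int.leN | apply IntF.fst | apply IntF.snd | apply IntF.app | apply IntF.sep | apply IntF.lam | apply IntF.insert | apply IntF.singleton | apply IntF.union | apply IntF.inter | apply IntF.sdiff | apply IntF.isUnion | apply IntF.iimage | apply IntF.succ | apply IntF.ite | apply IntF.the | apply IntF.irec)))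
  obtain ⟨u, hu⟩ := hc (sep M fun y : β => ∃ n : INat M, emb β n = y)
    ⟨0, (mem_sep hi).2 ⟨0, emb_zero⟩⟩ ⟨x, fun y hy => by
      obtain ⟨n, rfl⟩ := (mem_sep hi).1 hy
      exact h n⟩
  have h1 : u ≤ u - 1 := hu.2 fun y hy => by
    obtain ⟨n, rfl⟩ := (mem_sep hi).1 hy
    have h2 : emb β n.succ ≤ u := hu.1 ((mem_sep hi).2 ⟨n.succ, rfl⟩)
    rw [emb_succ] at h2
    linarith
  linarith

theorem separate (hc : ∀ s : IPow M β, (∃ x, x ∈ s) → BddAbove {x | x ∈ s} →
    ∃ x, IsLUB {x | x ∈ s} x) {r s : β} (hrs : r < s) :
    ∃ a b c : INat M, emb β a < emb β c * s + emb β b ∧ ¬ emb β a < emb β c * r + emb β b := by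
  obtain ⟨c, h1⟩ := arch hc (1 / (s - r))
  have h2 : 1 < emb β c * (s - r) := by
    rwa [div_lt_iff₀ (sub_pos.2 hrs)] at h1
  obtain ⟨b, h3⟩ := arch hc (-(emb β c * r))
  obtain ⟨a, h4, h5⟩ := INat.exists_least (p := fun a : INat M =>
    emb β c * r + emb β b ≤ emb β a) (by (repeat' (with_reducible (first | exact IntF.id | exact IntF.fst' | exact IntF.snd' | exact IntF.const _ | exact Int.const _ | assumption | apply int_le | apply intF_emb | apply Int.and | apply Int.or | apply Int.imp | apply Int.iff | apply Int.ne | apply Int.not | apply Int.all | apply Int.ex | apply Int.unique | apply Int.eq | apply Int.mem | apply Int.subset | apply Int.fin | apply Int.ltN | apply Int.leN | apply IntF.fst | apply IntF.snd | apply IntF.app | apply IntF.sep | apply IntF.lam | apply IntF.insert | apply IntF.singleton | apply IntF.union | apply IntF.inter | apply IntF.sdiff | apply IntF.isUnion | apply IntF.iimage | apply IntF.succ | apply IntF.ite | apply IntF.the | apply IntF.irec))))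
    ((arch hc (emb β c * r + emb β b)).imp fun _ h => h.le)
  refine ⟨a, b, c, ?_, not_lt.2 h4⟩
  rcases INat.eq_zero_or_succ a with rfl | ⟨d, rfl⟩
  · rw [emb_zero] at h4
    linarith
  · have h6 : emb β d < emb β c * r + emb β b := by
      by_contra h7
      exact absurd (h5 d (not_lt.1 h7)) (not_le.2 (INat.lt_succ_self d))
    rw [emb_succ]
    linarith

theorem field_inj (hc : ∀ s : IPow M β, (∃ x, x ∈ s) → BddAbove {x | x ∈ s} →
    ∃ x, IsLUB {x | x ∈ s} x) :
    ∃ g : β → IPow M (INat M), IntF M g ∧ Function.Injective g := by
  have hi : Int M (fun q : β × INat M => ∃ a b c : INat M, q.2 = pr (pr a b) c ∧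
      emb β a < emb β c * q.1 + emb β b) := by (repeat' (with_reducible (first | exact IntF.id | exact IntF.fst' | exact IntF.snd' | exact IntF.const _ | exact Int.const _ | assumption | apply int_lt | apply intF_emb | apply intF_pr | apply IntF.add | apply IntF.mul | apply Int.and | apply Int.or | apply Int.imp | apply Int.iff | apply Int.ne | apply Int.not | apply Int.all | apply Int.ex | apply Int.unique | apply Int.eq | apply Int.mem | apply Int.subset | apply Int.fin | apply Int.ltN | apply Int.leN | apply IntF.fst | apply IntF.snd | apply IntF.app | apply IntF.sep | apply IntF.lam | apply IntF.insert | apply IntF.singleton | apply IntF.union | apply IntF.inter | apply IntF.sdiff | apply IntF.isUnion | apply IntF.iimage | apply IntF.succ | apply IntF.ite | apply IntF.the | apply IntF.irec)))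
  have hm : ∀ (r : β) (a b c : INat M), pr (pr a b) c ∈ sep M (fun n : INat M =>
      ∃ a b c : INat M, n = pr (pr a b) c ∧ emb β a < emb β c * r + emb β b) ↔
      emb β a < emb β c * r + emb β b := by
    intro r a b c
    rw [mem_sep (Int.slice (p := fun (r : β) (n : INat M) => ∃ a b c : INat M,
      n = pr (pr a b) c ∧ emb β a < emb β c * r + emb β b) hi r)]
    refine ⟨?_, fun h => ⟨a, b, c, rfl, h⟩⟩
    rintro ⟨a', b', c', h1, h2⟩
    obtain ⟨h3, rfl⟩ := pr_inj h1
    obtain ⟨rfl, rfl⟩ := pr_inj h3
    exact h2
  refine ⟨fun r => sep M (fun n : INat M => ∃ a b c : INat M, n = pr (pr a b) c ∧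
      emb β a < emb β c * r + emb β b), IntF.sep hi, fun r s hrs => ?_⟩
  dsimp only at hrs
  rcases lt_trichotomy r s with h | h | h
  · obtain ⟨a, b, c, h1, h2⟩ := separate hc h
    rw [← hm, hrs, hm] at h2
    exact absurd h1 h2
  · exact h
  · obtain ⟨a, b, c, h1, h2⟩ := separate hc h
    rw [← hm, ← hrs, hm] at h2
    exact absurd h1 h2

end Pool.Agent.H35Z.Cuf
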