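import Pool.Agent.H35Z.Cuf.Defs
import Pool.Agent.H35Z.Cuf.Reals

/-!
# From the language of set theory to internal types
-/

set_option linter.unreachableTactic false
set_option linter.unusedTactic false
set_option linter.unusedVariables false
set_option linter.unusedSectionVars false

namespace Pool.Agent.H35Z.SetTop

open FirstOrder FirstOrder.Language Pool.Agent.Helper672 Pool.Agent.H35Z.Cuf

universe u

variable {M : Type u} [LSet.Structure M]

variable (M) in
/-- The structure for set theory with atoms in which everything is a set. -/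
@[reducible] def toL : ZFA.L.Structure M where
  funMap := fun f => Empty.elim f
  RelMap := fun {_} r v => match r, v with
    | ZFA.Sym.isSet, _ => True
    | ZFA.Sym.mem, v => Structure.RelMap (L := LSet) (Sym.mem : LSet.Relations 2) v

attribute [local instance] toL

theorem mem_toL {x y : M} : ZFA.Mem x y ↔ Mem x y := Iff.rfl

theorem exists_term {ι : Type} {n : ℕ}
    (t : ZFA.L[[(Set.univ : Set M)]].Term (ι ⊕ Fin n)) :
    ∃ t' : LSet[[(Set.univ : Set M)]].Term (ι ⊕ Fin n), ∀ v : (ι ⊕ Fin n) → M,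
      t'.realize v = t.realize v := by
  induction t with
  | var i => exact ⟨Term.var i, fun _ => rfl⟩
  | @func k f ts ih =>
    rcases f with f | f
    · exact Empty.elim f
    · rcases k with _ | k
      · obtain rfl : ts = default := Subsingleton.elim _ _
        let a : (Set.univ : Set M) := f
        refine ⟨(LSet.con a).term, fun v => ?_⟩
        change Term.realize v (LSet.con a).term = Term.realize v (ZFA.L.con a).term
        rw [Term.realize_constants, Term.realize_constants]
        simp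
      · exact PEmpty.elim f

theorem exists_formula {ι : Type} {n : ℕ}
    (φ : ZFA.L[[(Set.univ : Set M)]].BoundedFormula ι n) :
    ∃ ψ : LSet[[(Set.univ : Set M)]].BoundedFormula ι n, ∀ (v : ι → M) (xs : Fin n → M),
      ψ.Realize v xs ↔ φ.Realize v xs := by
  induction φ with
  | falsum => exact ⟨BoundedFormula.falsum, fun _ _ => Iff.rfl⟩
  | equal t₁ t₂ =>
    obtain ⟨s₁, h₁⟩ := exists_term t₁
    obtain ⟨s₂, h₂⟩ := exists_term t₂
    refine ⟨BoundedFormula.equal s₁ s₂, fun v xs => ?_⟩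
    simp only [BoundedFormula.Realize, h₁, h₂]
  | @rel k l R ts =>
    rcases R with R | R
    · cases R with
      | isSet =>
        refine ⟨⊤, fun v xs => ?_⟩
        simp only [BoundedFormula.realize_top, true_iff]
        trivial
      | mem =>
        choose s hs using fun i => exists_term (ts i)
        refine ⟨BoundedFormula.rel (L := LSet[[(Set.univ : Set M)]]) (Sum.inl Sym.mem) s,
          fun v xs => ?_⟩
        simp only [BoundedFormula.Realize, hs]
        rfl
    · exact Empty.elim R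
  | imp φ₁ φ₂ ih₁ ih₂ =>
    obtain ⟨ψ₁, h₁⟩ := ih₁
    obtain ⟨ψ₂, h₂⟩ := ih₂
    exact ⟨ψ₁.imp ψ₂, fun v xs => by simp only [BoundedFormula.realize_imp, h₁, h₂]⟩
  | all φ ih =>
    obtain ⟨ψ, h⟩ := ih
    exact ⟨ψ.all, fun v xs => by simp only [BoundedFormula.realize_all, h]⟩

theorem definable_toL {S : Set M} (h : (Set.univ : Set M).Definable₁ ZFA.L S) :
    (Set.univ : Set M).Definable₁ LSet S := by
  obtain ⟨φ, hφ⟩ := h
  obtain ⟨ψ, hψ⟩ := exists_formula φ
  refine ⟨ψ, ?_⟩
  rw [hφ]
  ext v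
  exact (hψ v _).symm

theorem isModel_toL [h : Zermelo M] : ZFA.IsModel M where
  atoms _ _ _ := trivial
  ext x y _ _ h1 := h.ext x y h1
  pairing x y := by
    obtain ⟨p, hp⟩ := h.pairing x y
    exact ⟨p, trivial, hp⟩
  union x := by
    obtain ⟨a, ha⟩ := h.union x
    exact ⟨a, trivial, ha⟩
  power x := by
    obtain ⟨p, hp⟩ := h.power x
    exact ⟨p, trivial, fun z => (hp z).trans ⟨fun h1 => ⟨trivial, h1⟩, fun h1 => h1.2⟩⟩
  infinity := by
    obtain ⟨i, ⟨e, h1, h2⟩, h3⟩ := h.infinity
    refine ⟨i, ⟨e, h1, trivial, h2⟩, fun n hn => ?_⟩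
    obtain ⟨s, hs, h4⟩ := h3 n hn
    exact ⟨s, hs, trivial, h4⟩
  separation S hS x := by
    obtain ⟨y, hy⟩ := h.separation S (definable_toL hS) x
    exact ⟨y, trivial, hy⟩

attribute [local instance] isModel_toL

theorem ind_toL {i : M} : ZFA.Ind i ↔ IsInductive i := by
  constructor
  · rintro ⟨⟨e, h1, -, h2⟩, h3⟩
    refine ⟨⟨e, h1, h2⟩, fun n hn => ?_⟩
    obtain ⟨s, h4, -, h5⟩ := h3 n hn
    exact ⟨s, h4, h5⟩
  · rintro ⟨⟨e, h1, h2⟩, h3⟩
    refine ⟨⟨e, h1, trivial, h2⟩, fun n hn => ?_⟩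
    obtain ⟨s, h4, h5⟩ := h3 n hn
    exact ⟨s, h4, trivial, h5⟩

/-- A natural number as an element of the internal type. -/
def toNat {n : M} (h : IsNat n) : ZFA.INat M := ⟨n, fun i hi => h i (ind_toL.1 hi)⟩

theorem isNat_val (n : ZFA.INat M) : IsNat n.val := fun i hi => n.prop i (ind_toL.2 hi)

variable [hZ : Zermelo M]

open ZFA hiding Mem IsPair IsOrdPair El

theorem isPair_iff {p x y : M} : IsPair p x y ↔ p = up x y :=
  ⟨fun h => eq_up.2 ⟨trivial, h⟩, fun h => (eq_up.1 h).2⟩

theorem isOrdPair_iff {p x y : M} : IsOrdPair p x y ↔ p = op x y := by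
  constructor
  · rintro ⟨s, d, h1, h2, h3⟩
    rw [isPair_iff] at h1 h2 h3
    subst h1 h2
    exact h3
  · rintro rfl
    exact ⟨_, _, isPair_iff.2 rfl, isPair_iff.2 rfl, isPair_iff.2 rfl⟩

theorem app_iff {f x y : M} : App f x y ↔ Mem (op x y) f := by
  constructor
  · rintro ⟨p, h1, h2⟩
    rwa [isOrdPair_iff.1 h1] at h2
  · intro h
    exact ⟨_, isOrdPair_iff.2 rfl, h⟩

/-- The elements of an element of the model form an internal type. -/
noncomputable instance elITy (x : M) : ITy M (El x) where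
  code z := z.1
  inj _ _ h := Subtype.ext h
  small := ⟨x, trivial, fun z => ⟨fun h => ⟨⟨z, h⟩, rfl⟩, fun ⟨a, h⟩ => h ▸ a.2⟩⟩

section general

variable {α : Type u} [ITy M α] {β : Type u} [ITy M β]

variable (α) in
/-- The internal set given by an element of the model. -/
def toPow (s : M) : IPow M α := ⟨fun a => Mem (code a) s, ⟨s, fun _ => Iff.rfl⟩⟩

theorem mem_toPow {s : M} {a : α} : a ∈ toPow α s ↔ Mem (code a) s := Iff.rfl

theorem mem_code {s : IPow M α} {z : M} : Mem z (code s) ↔ ∃ a, a ∈ s ∧ code a = z :=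
  mem_toL.symm.trans (mem_code_pow (s := s) (z := z))

theorem mem_cc {s : IPow M α} {a : α} : Mem (code a) (code (M := M) s) ↔ a ∈ s :=
  mem_toL.symm.trans (mem_code_iff (s := s) (a := a))

theorem code_toPow {s : M} (h : ∀ z, Mem z s → ∃ a : α, code a = z) : code (toPow α s) = s := by
  refine hZ.ext _ _ fun z => mem_code.trans ⟨?_, fun hz => ?_⟩
  · rintro ⟨a, ha, rfl⟩
    exact ha
  · obtain ⟨a, rfl⟩ := h z hz
    exact ⟨a, hz, rfl⟩

theorem int_app (f : M) : Int M (fun q : α × β => App f (code q.1) (code q.2)) :=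
  ⟨f, fun _ => app_iff.symm⟩

theorem fin_lt (n : INat M) : IFin (sep M fun m : INat M => m < n) := by
  refine INat.ind (p := fun n : INat M => IFin (sep M fun m : INat M => m < n)) (by (repeat' (with_reducible (first | exact IntF.id | exact IntF.fst' | exact IntF.snd' | exact IntF.const _ | exact Int.const _ | assumption | apply Int.and | apply Int.or | apply Int.imp | apply Int.iff | apply Int.ne | apply Int.not | apply Int.all | apply Int.ex | apply Int.unique | apply Int.eq | apply Int.mem | apply Int.subset | apply Int.fin | apply Int.ltN | apply Int.leN | apply IntF.fst | apply IntF.snd | apply IntF.app | apply IntF.sep | apply IntF.lam | apply IntF.insert | apply IntF.singleton | apply IntF.union | apply IntF.inter | apply IntF.sdiff | apply IntF.isUnion | apply IntF.iimage | apply IntF.succ | apply IntF.ite | apply IntF.the | apply IntF.irec)))) ?_ ?_ n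
  · refine IFin.empty.subset fun m hm => ?_
    rw [mem_sep (by (repeat' (with_reducible (first | exact IntF.id | exact IntF.fst' | exact IntF.snd' | exact IntF.const _ | exact Int.const _ | assumption | apply Int.and | apply Int.or | apply Int.imp | apply Int.iff | apply Int.ne | apply Int.not | apply Int.all | apply Int.ex | apply Int.unique | apply Int.eq | apply Int.mem | apply Int.subset | apply Int.fin | apply Int.ltN | apply Int.leN | apply IntF.fst | apply IntF.snd | apply IntF.app | apply IntF.sep | apply IntF.lam | apply IntF.insert | apply IntF.singleton | apply IntF.union | apply IntF.inter | apply IntF.sdiff | apply IntF.isUnion | apply IntF.iimage | apply IntF.succ | apply IntF.ite | apply IntF.the | apply IntF.irec))))] at hm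
    exact absurd hm INat.not_lt_zero
  · intro n ih
    refine (ih.insert n).subset fun m hm => ?_
    rw [mem_sep (by (repeat' (with_reducible (first | exact IntF.id | exact IntF.fst' | exact IntF.snd' | exact IntF.const _ | exact Int.const _ | assumption | apply Int.and | apply Int.or | apply Int.imp | apply Int.iff | apply Int.ne | apply Int.not | apply Int.all | apply Int.ex | apply Int.unique | apply Int.eq | apply Int.mem | apply Int.subset | apply Int.fin | apply Int.ltN | apply Int.leN | apply IntF.fst | apply IntF.snd | apply IntF.app | apply IntF.sep | apply IntF.lam | apply IntF.insert | apply IntF.singleton | apply IntF.union | apply IntF.inter | apply IntF.sdiff | apply IntF.isUnion | apply IntF.iimage | apply IntF.succ | apply IntF.ite | apply IntF.the | apply IntF.irec))))] at hm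
    rw [mem_insert, mem_sep (by (repeat' (with_reducible (first | exact IntF.id | exact IntF.fst' | exact IntF.snd' | exact IntF.const _ | exact Int.const _ | assumption | apply Int.and | apply Int.or | apply Int.imp | apply Int.iff | apply Int.ne | apply Int.not | apply Int.all | apply Int.ex | apply Int.unique | apply Int.eq | apply Int.mem | apply Int.subset | apply Int.fin | apply Int.ltN | apply Int.leN | apply IntF.fst | apply IntF.snd | apply IntF.app | apply IntF.sep | apply IntF.lam | apply IntF.insert | apply IntF.singleton | apply IntF.union | apply IntF.inter | apply IntF.sdiff | apply IntF.isUnion | apply IntF.iimage | apply IntF.succ | apply IntF.ite | apply IntF.the | apply IntF.irec))))]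
    exact (INat.lt_succ_iff'.1 hm).symm

theorem nat_of_mem (n : INat M) : ∀ x : M, Mem x n.val → ∃ m : INat M, m.val = x := by
  refine INat.ind (p := fun n : INat M => ∀ x : M, Mem x n.val → ∃ m : INat M, m.val = x)
    ?_ ?_ ?_ n
  · refine Int.of_D (S := fun v => ∀ x : M, ZFA.Mem x (v 0) → ZFA.Mem x (dom M (INat M))) ?_
      fun a => ?_
    · exact D.all (D.imp (D.memf (DF.var _) (DF.var _)) (D.memf (DF.var _) (DF.const _)))
    · exact forall_congr' fun x => imp_congr Iff.rfl mem_dom
  · intro x hx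
    exact absurd (mem_toL.2 hx) INat.not_mem_zero
  · intro n ih x hx
    rcases INat.mem_succ.1 (mem_toL.2 hx) with h | h
    · exact ih x (mem_toL.1 h)
    · exact ⟨n, h.symm⟩

theorem fin_of_isFinite {s : IPow M α} (h : IsFinite (code (M := M) s)) : IFin s := by
  obtain ⟨n, f, hn, ⟨⟨h1, h2⟩, h3, -⟩, h4⟩ := h
  have hi : Int M (fun q : INat M × α => App f (code q.1) (code q.2)) := int_app f
  have hg : IntF M (fun m : INat M => sep M fun a : α => App f (code m) (code a)) :=
    IntF.sep (p := fun (m : INat M) (a : α) => App f (code m) (code a)) hi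
  have hm : ∀ (m : INat M) (a : α), a ∈ (sep M fun a : α => App f (code m) (code a)) ↔
      App f (code m) (code a) := fun m a =>
    mem_sep (Int.slice (p := fun (m : INat M) (a : α) => App f (code m) (code a)) hi m)
  have hdom : ∀ x y, App f x y → Mem x n := by
    rintro x y ⟨p, h5, h6⟩
    obtain ⟨x', y', h7, h8⟩ := h1 p h6
    rw [isOrdPair_iff] at h5 h8
    rw [h5] at h8
    rwa [(op_inj h8).1]
  refine (((fin_lt (toNat hn)).image hg).isUnion fun t ht => ?_).subset fun a ha => ?_
  · obtain ⟨m, -, rfl⟩ := (mem_iimage hg).1 ht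
    by_cases h5 : ∃ a : α, App f (code m) (code a)
    · obtain ⟨a, ha⟩ := h5
      refine (IFin.singleton a).subset fun b hb => ?_
      rw [mem_singleton]
      exact ITy.inj ((h2 _ (hdom _ _ ha)).unique ((hm m b).1 hb) ha)
    · exact IFin.empty.subset fun b hb => absurd ⟨b, (hm m b).1 hb⟩ h5
  · obtain ⟨x, hx⟩ := h4 (code a) (mem_code.2 ⟨a, ha, rfl⟩)
    obtain ⟨m, rfl⟩ := nat_of_mem (toNat hn) x (hdom _ _ hx)
    refine mem_isUnion.2 ⟨_, (mem_iimage hg).2 ⟨m, ?_, rfl⟩, (hm m a).2 hx⟩
    rw [mem_sep (by (repeat' (with_reducible (first | exact IntF.id | exact IntF.fst' | exact IntF.snd' | exact IntF.const _ | exact Int.const _ | assumption | apply Int.and | apply Int.or | apply Int.imp | apply Int.iff | apply Int.ne | apply Int.not | apply Int.all | apply Int.ex | apply Int.unique | apply Int.eq | apply Int.mem | apply Int.subset | apply Int.fin | apply Int.ltN | apply Int.leN | apply IntF.fst | apply IntF.snd | apply IntF.app | apply IntF.sep | apply IntF.lam | apply IntF.insert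 | apply IntF.singleton | apply IntF.union | apply IntF.inter | apply IntF.sdiff | apply IntF.isUnion | apply IntF.iimage | apply IntF.succ | apply IntF.ite | apply IntF.the | apply IntF.irec))))]
    exact hdom _ _ hx

/-- An internal injection gives an injection in the model. -/
theorem isInj_of {a b : M} (ha : ∀ z, Mem z a ↔ ∃ x : α, code x = z)
    (hb : ∀ y : β, Mem (code y) b) {g : α → β} (hg : IntF M g) (hinj : Function.Injective g) :
    ∃ f, IsInj f a b := by
  have hm : ∀ x y : M, App hg.small.elt x y ↔ ∃ c : α, code c = x ∧ code (g c) = y := by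
    intro x y
    rw [app_iff]
    refine hg.small.mem.trans ⟨?_, ?_⟩
    · rintro ⟨⟨c, d⟩, h1, h2⟩
      obtain ⟨h3, h4⟩ := op_inj h2
      dsimp only at h1
      subst h1
      exact ⟨c, h3, h4⟩
    · rintro ⟨c, rfl, rfl⟩
      exact ⟨(c, g c), rfl, rfl⟩
  refine ⟨hg.small.elt, ⟨fun p hp => ?_, fun x hx => ?_⟩, fun x y h => ?_, fun x x' y h h' => ?_⟩
  · obtain ⟨⟨c, d⟩, -, rfl⟩ := hg.small.mem.1 hp
    exact ⟨code c, code d, (ha _).2 ⟨c, rfl⟩, isOrdPair_iff.2 rfl⟩
  · obtain ⟨c, rfl⟩ := (ha x).1 hx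
    refine ⟨code (g c), (hm _ _).2 ⟨c, rfl, rfl⟩, fun y hy => ?_⟩
    obtain ⟨d, h1, rfl⟩ := (hm _ _).1 hy
    rw [ITy.inj h1]
  · obtain ⟨c, -, rfl⟩ := (hm _ _).1 h
    exact hb _
  · obtain ⟨c, rfl, rfl⟩ := (hm _ _).1 h
    obtain ⟨d, rfl, h1⟩ := (hm _ _).1 h'
    rw [hinj (ITy.inj h1)]

end general

section space

variable {X τ : M}

theorem code_el (x : El X) : code (M := M) x = x.1 := rfl

theorem code_toPow_el {s : M} (h : Sub s X) : code (toPow (El X) s) = s :=
  code_toPow fun z hz => ⟨⟨z, h z hz⟩, rfl⟩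

theorem sub_code (s : IPow M (El X)) : Sub (code s) X := fun z hz => by
  obtain ⟨a, -, rfl⟩ := mem_code.1 hz
  exact a.2

theorem mem_code_el {s : IPow M (El X)} {x : El X} : Mem x.1 (code s) ↔ x ∈ s :=
  mem_cc (M := M) (s := s) (a := x)

theorem code_toPow_fam {F : M} (h : ∀ U, Mem U F → Sub U X) :
    code (toPow (IPow M (El X)) F) = F :=
  code_toPow fun U hU => ⟨toPow (El X) U, code_toPow_el (h U hU)⟩

theorem code_eq {s : IPow M (El X)} {W : M} (hW : Sub W X) (h : ∀ x : El X, Mem x.1 W ↔ x ∈ s) :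
    code s = W := by
  have : s = toPow (El X) W := IPow.ext' fun x => (h x).symm
  rw [this, code_toPow_el hW]

theorem isClosedIn_of_cld (hτ : IsTopology X τ) {C : IPow M (El X)}
    (hC : Cld (toPow (IPow M (El X)) τ) C) : IsClosedIn X τ (code C) := by
  have hi : Int M (fun U : IPow M (El X) => U ∈ toPow (IPow M (El X)) τ ∧ Dj U C) := by
    (repeat' (with_reducible (first | exact IntF.id | exact IntF.fst' | exact IntF.snd' | exact IntF.const _ | exact Int.const _ | assumption | apply int_dj | apply Int.and | apply Int.or | apply Int.imp | apply Int.iff | apply Int.ne | apply Int.not | apply Int.all | apply Int.ex | apply Int.unique | apply Int.eq | apply Int.mem | apply Int.subset | apply Int.fin | apply Int.ltN | apply Int.leN | apply IntF.fst | apply IntF.snd | apply IntF.app | apply IntF.sep | apply IntF.lam | apply IntF.insert | apply IntF.singleton | apply IntF.union | apply IntF.inter | apply IntF.sdiff | apply IntF.isUnion | apply IntF.iimage | apply IntF.succ | apply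 IntF.ite | apply IntF.the | apply IntF.irec)))
  obtain ⟨W, hW, h⟩ := hτ.2.2.2 (code (sep M fun U : IPow M (El X) =>
    U ∈ toPow (IPow M (El X)) τ ∧ Dj U C)) fun z hz => by
      obtain ⟨U, hU, rfl⟩ := mem_code.1 hz
      exact ((mem_sep hi).1 hU).1
  refine ⟨sub_code C, W, hW, fun z => (h z).trans ⟨?_, ?_⟩⟩
  · rintro ⟨U', hU', hz⟩
    obtain ⟨U, hU, rfl⟩ := mem_code.1 hU'
    obtain ⟨x, hx, rfl⟩ := mem_code.1 hz
    exact ⟨x.2, fun h1 => ((mem_sep hi).1 hU).2 x hx (mem_code_el.1 h1)⟩
  · rintro ⟨h1, h2⟩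
    obtain ⟨U, hU, hx, h3⟩ := cld_iff.1 hC ⟨z, h1⟩ fun h3 => h2 (mem_code_el.2 h3)
    exact ⟨code U, mem_code.2 ⟨U, (mem_sep hi).2 ⟨hU, h3⟩, rfl⟩, mem_code_el.2 hx⟩

theorem exists_sp (hτ : IsTopology X τ) (hc : IsCompactSpace X τ) (hh : IsHausdorff X τ)
    (hl : IsWeaklyLoeb X τ) (hb : HasCufBase τ) :
    ∃ S : Sp M (El X), S.τ = toPow (IPow M (El X)) τ := by
  obtain ⟨K, f, hK, hf, hf'⟩ := hl
  obtain ⟨B, ⟨w, F, hw, hF, hF', hB⟩, hBτ, hbase⟩ := hb
  have i1 : Int M (fun q : INat M × IPow M (IPow M (El X)) => App F (code q.1) (code q.2)) :=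
    int_app F
  have i2 : Int M (fun q : IPow M (El X) × IPow M (El X) => App f (code q.1) (code q.2)) :=
    int_app f
  have u1 : ∀ n : INat M, ∃! A : IPow M (IPow M (El X)), App F (code n) (code A) := by
    intro n
    obtain ⟨A, hA, hu⟩ := hF.2 (code n) ((hw _).2 (isNat_val n))
    have h1 : code (toPow (IPow M (El X)) A) = A :=
      code_toPow_fam fun U hU => hτ.1 U (hBτ U ((hB U).2 ⟨_, A, hA, hU⟩))
    refine ⟨toPow _ A, by dsimp only; rwa [h1], fun A' hA' => ITy.inj (M := M) ?_⟩
    rw [h1]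
    exact hu _ hA'
  have u2 : ∀ C : IPow M (El X), Mem (code C) K → ∃! A : IPow M (El X), App f (code C) (code A) := by
    intro C hC
    obtain ⟨A, hA, hu⟩ := hf.2 (code C) hC
    have h1 : code (toPow (El X) A) = A :=
      code_toPow_el fun z hz => sub_code C z ((hf' _ _ hA).2.2 z hz)
    refine ⟨toPow _ A, by dsimp only; rwa [h1], fun A' hA' => ITy.inj (M := M) ?_⟩
    rw [h1]
    exact hu _ hA'
  have sB : ∀ n : INat M, App F (code n)
      (code (the (fun A : IPow M (IPow M (El X)) => App F (code n) (code A)) ∅)) :=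
    fun n => the_spec (u1 n)
  refine ⟨⟨toPow _ τ,
    ⟨fun n => the (fun A : IPow M (IPow M (El X)) => App F (code n) (code A)) ∅,
      IntF.the (p := fun (n : INat M) (A : IPow M (IPow M (El X))) => App F (code n) (code A))
        i1 (IntF.const _)⟩,
    ⟨fun C => the (fun A : IPow M (El X) => App f (code C) (code A)) ∅,
      IntF.the (p := fun (C : IPow M (El X)) (A : IPow M (El X)) => App f (code C) (code A))
        i2 (IntF.const _)⟩, ?_, ?_, ?_, ?_, ?_, ?_, ?_, ?_, ?_⟩, rfl⟩
  · rw [mem_toPow, code_eq (fun _ => id) fun x => ⟨fun _ => by simp, fun _ => x.2⟩]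
    exact hτ.2.1
  · intro U V hU hV
    obtain ⟨W, hW, h⟩ := hτ.2.2.1 _ _ hU hV
    have h1 : code (U ∩ V) = W := code_eq (hτ.1 W hW) fun x => by
      rw [h, mem_inter, mem_code_el, mem_code_el]
    rw [mem_toPow, h1]
    exact hW
  · intro G hG
    obtain ⟨W, hW, h⟩ := hτ.2.2.2 (code G) fun z hz => by
      obtain ⟨U, hU, rfl⟩ := mem_code.1 hz
      exact hG U hU
    have h1 : code (isUnion G) = W := code_eq (hτ.1 W hW) fun x => by
      rw [h, mem_isUnion]
      constructor
      · rintro ⟨U', hU', hx⟩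
        obtain ⟨U, hU, rfl⟩ := mem_code.1 hU'
        exact ⟨U, hU, mem_code_el.1 hx⟩
      · rintro ⟨U, hU, hx⟩
        exact ⟨code U, mem_code.2 ⟨U, hU, rfl⟩, mem_code_el.2 hx⟩
    rw [mem_toPow, h1]
    exact hW
  · intro x y hxy
    obtain ⟨U, V, hU, hV, hx, hy, h⟩ := hh x.1 y.1 x.2 y.2 fun h => hxy (Subtype.ext h)
    refine ⟨toPow _ U, toPow _ V, ?_, ?_, hx, hy, fun z hz hz' => h z.1 ⟨hz, hz'⟩⟩
    · rwa [mem_toPow, code_toPow_el (hτ.1 U hU)]
    · rwa [mem_toPow, code_toPow_el (hτ.1 V hV)]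
  · intro G hG hcov
    have h1 : Sub (code G) τ := fun z hz => by
      obtain ⟨U, hU, rfl⟩ := mem_code.1 hz
      exact hG U hU
    obtain ⟨H, h2, h3, h4⟩ := hc (code G) h1 fun x hx => by
      obtain ⟨U, hU, hxU⟩ := hcov ⟨x, hx⟩
      exact ⟨code U, mem_code.2 ⟨U, hU, rfl⟩, mem_code_el.2 hxU⟩
    have h5 : code (toPow (IPow M (El X)) H) = H :=
      code_toPow_fam fun U hU => hτ.1 U (h1 U (h2 U hU))
    refine ⟨toPow _ H, fun U hU => mem_cc.1 (h2 _ hU), fin_of_isFinite (by rwa [h5]),
      fun x => ?_⟩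
    obtain ⟨U', hU', hx⟩ := h4 x.1 x.2
    obtain ⟨U, -, rfl⟩ := mem_code.1 (h2 U' hU')
    exact ⟨U, hU', mem_code_el.1 hx⟩
  · intro n
    exact fin_of_isFinite (hF' _ _ (sB n))
  · intro n U hU
    exact hBτ _ ((hB _).2 ⟨_, _, sB n, mem_cc.2 hU⟩)
  · intro U x hU hx
    obtain ⟨V, hV, hxV, hVU⟩ := hbase (code U) x.1 hU (mem_code_el.2 hx)
    obtain ⟨n, A, hA, hVA⟩ := (hB V).1 hV
    have hn : Mem n w := by
      obtain ⟨p, h5, h6⟩ := hA
      obtain ⟨x', y', h7, h8⟩ := hF.1 p h6
      rw [isOrdPair_iff] at h5 h8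
      rw [h5] at h8
      rwa [(op_inj h8).1]
    have h1 := (hF.2 n hn).unique hA (sB (toNat ((hw n).1 hn)))
    have h2 : code (toPow (El X) V) = V := code_toPow_el (hτ.1 V (hBτ V hV))
    refine ⟨toNat ((hw n).1 hn), toPow _ V, ?_, hxV, fun z hz => mem_code_el.1 (hVU z.1 hz)⟩
    refine mem_cc.1 ?_
    rw [h2]
    exact h1 ▸ hVA
  · rintro C hC ⟨x, hx⟩
    have h1 : Mem (code C) K := (hK _).2 ⟨isClosedIn_of_cld hτ hC, x.1, mem_code_el.2 hx⟩
    have h5 : App f (code C)
        (code (the (fun A : IPow M (El X) => App f (code C) (code A)) ∅)) := the_spec (u2 C h1)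
    obtain ⟨⟨y, h2⟩, h3, h4⟩ := hf' _ _ h5
    refine ⟨fin_of_isFinite h3, ?_, fun z hz => mem_code_el.1 (h4 _ (mem_code_el.2 hz))⟩
    obtain ⟨a, ha, -⟩ := mem_code.1 h2
    exact ⟨a, ha⟩

theorem exists_perf (hτ : IsTopology X τ) (hs : ¬ IsScattered X τ) {S : Sp M (El X)}
    (hS : S.τ = toPow (IPow M (El X)) τ) : ∃ P, S.Perf P := by
  unfold IsScattered at hs
  push Not at hs
  obtain ⟨T, hT, ⟨x, hx⟩, h⟩ := hs
  refine ⟨_, S.perf_cl (s := toPow (El X) T) ⟨⟨x, hT x hx⟩, hx⟩ fun y U hy hU hyU => ?_⟩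
  rw [hS] at hU
  obtain ⟨z, hz⟩ := h y.1 (code U) hU
  rcases hz with ⟨⟨h1, h2⟩, h3⟩ | ⟨h1, rfl⟩
  · exact ⟨⟨z, hT z h2⟩, h2, mem_code_el.1 h1, fun h4 => h3 (congrArg Subtype.val h4)⟩
  · exact absurd hy (h1 (mem_code_el.2 hyU))

theorem main (hτ : IsTopology X τ) (hc : IsCompactSpace X τ) (hh : IsHausdorff X τ)
    (hs : ¬ IsScattered X τ) (hl : IsWeaklyLoeb X τ) (hb : HasCufBase τ) (R : M)
    (hR : IsRealField R ∨ IsPowerOfOmega R) : ∃ g, IsInj g R X := by
  obtain ⟨S, hS⟩ := exists_sp hτ hc hh hl hb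
  obtain ⟨P, hP⟩ := exists_perf hτ hs hS
  obtain ⟨g, hg, hinj⟩ := S.main hP
  rcases hR with ⟨iF, iL, iO, ⟨a, ha⟩, ⟨m, hm⟩, ⟨l, hl⟩, hcpl⟩ | hR
  · have i1 : IAdd M (El R) := ⟨⟨a, fun q => by
      refine Iff.trans ?_ (ha q.1.1 q.1.2 q.2).symm
      simp only [isOrdPair_iff, app_iff, exists_eq_left]
      rfl⟩⟩
    have i2 : IMul M (El R) := ⟨⟨m, fun q => by
      refine Iff.trans ?_ (hm q.1.1 q.1.2 q.2).symm
      simp only [isOrdPair_iff, app_iff, exists_eq_left]
      rfl⟩⟩
    have i3 : ILE M (El R) := ⟨⟨l, fun q => by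
      refine Iff.trans ?_ (hl q.1 q.2).symm
      rw [app_iff]
      rfl⟩⟩
    obtain ⟨e, he, heinj⟩ := field_inj (M := M) (β := El R) fun s h1 h2 => by
      have h3 : {x : El R | Mem x.1 (code s)} = {x | x ∈ s} := Set.ext fun x => mem_code_el
      rw [← h3] at h2 ⊢
      exact hcpl (code s) (h1.imp fun x hx => mem_code_el.2 hx) h2
    exact isInj_of (α := El R) (β := El X)
      (fun z => ⟨fun hz => ⟨⟨z, hz⟩, rfl⟩, fun ⟨x, hx⟩ => hx ▸ x.2⟩) (fun y => y.2)
      (IntF.comp hg he) (hinj.comp heinj)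
  · refine isInj_of (α := IPow M (INat M)) (β := El X) (fun z => (hR z).trans ⟨fun h => ?_, ?_⟩)
      (fun y => y.2) hg hinj
    · exact ⟨toPow _ z, code_toPow fun n hn => ⟨toNat (h n hn), rfl⟩⟩
    · rintro ⟨s, rfl⟩ n hn
      obtain ⟨k, -, rfl⟩ := mem_code.1 hn
      exact isNat_val k

end space

end Pool.Agent.H35Z.SetTop
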