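import Mathlib

/-!
# Topology in models of set theory without choice: the definitions

The language of set theory has one binary relation symbol, membership. The class `Zermelo M` says
that the structure `M` is a model of Zermelo set theory: Extensionality, Pairing, Union, Power
Set, Infinity and the schema of Separation. All of these are axioms or theorems of ZF, so every
model of ZF is such an `M`. No form of choice is assumed, and neither Foundation nor Replacement.
All the notions below are the usual ones, evaluated in the structure `M`.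
-/

namespace Pool.Agent.H35Z.SetTop

open FirstOrder FirstOrder.Language

universe u

/-- The relation symbols of set theory: a binary one for membership. -/
inductive Sym : ℕ → Type
  | mem : Sym 2

/-- The language of set theory. -/
def LSet : FirstOrder.Language.{0, 0} := ⟨fun _ => Empty, Sym⟩

variable {M : Type u} [LSet.Structure M]

/-- `x` is an element of `y`. -/
def Mem (x y : M) : Prop := Structure.RelMap (L := LSet) (Sym.mem : LSet.Relations 2) ![x, y]

/-- `i` contains the empty set and, with each `n`, the set `n ∪ {n}`. -/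
def IsInductive (i : M) : Prop :=
  (∃ e, Mem e i ∧ ∀ z, ¬ Mem z e) ∧ ∀ n, Mem n i → ∃ s, Mem s i ∧ ∀ z, Mem z s ↔ Mem z n ∨ z = n

variable (M) in
/-- Models of Zermelo set theory: Extensionality, Pairing, Union, Power Set, Infinity, and the
schema of Separation for all classes that are first order definable with parameters. -/
class Zermelo : Prop where
  ext : ∀ x y : M, (∀ z, Mem z x ↔ Mem z y) → x = y
  pairing : ∀ x y : M, ∃ p, ∀ z, Mem z p ↔ z = x ∨ z = y
  union : ∀ x : M, ∃ a, ∀ z, Mem z a ↔ ∃ y, Mem y x ∧ Mem z y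
  power : ∀ x : M, ∃ p, ∀ z, Mem z p ↔ ∀ w, Mem w z → Mem w x
  infinity : ∃ i : M, IsInductive i
  separation : ∀ S : Set M, (Set.univ : Set M).Definable₁ LSet S →
    ∀ x : M, ∃ y, ∀ z, Mem z y ↔ Mem z x ∧ z ∈ S

/-- `a` is a subset of `b`. -/
def Sub (a b : M) : Prop := ∀ z, Mem z a → Mem z b

/-- `p` is the unordered pair `{x, y}`. -/
def IsPair (p x y : M) : Prop := ∀ z, Mem z p ↔ z = x ∨ z = y

/-- `p` is the (Kuratowski) ordered pair `(x, y) = {{x}, {x, y}}`. -/
def IsOrdPair (p x y : M) : Prop := ∃ s d, IsPair s x x ∧ IsPair d x y ∧ IsPair p s d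

/-- The ordered pair `(x, y)` is an element of `f`. -/
def App (f x y : M) : Prop := ∃ p, IsOrdPair p x y ∧ Mem p f

/-- `f` is a function with domain `a`. -/
def IsFunOn (f a : M) : Prop :=
  (∀ p, Mem p f → ∃ x y, Mem x a ∧ IsOrdPair p x y) ∧ ∀ x, Mem x a → ∃! y, App f x y

/-- `f` is an injection of `a` into `b`. -/
def IsInj (f a b : M) : Prop :=
  IsFunOn f a ∧ (∀ x y, App f x y → Mem y b) ∧ ∀ x x' y, App f x y → App f x' y → x = x'

/-- `n` is a natural number: an element of every inductive set. -/
def IsNat (n : M) : Prop := ∀ i, IsInductive i → Mem n i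

/-- `s` is finite: there is a bijection from a natural number onto `s`. -/
def IsFinite (s : M) : Prop :=
  ∃ n f, IsNat n ∧ IsInj f n s ∧ ∀ y, Mem y s → ∃ x, App f x y

/-- `s` is a cuf set: the union of a sequence, indexed by the set `w` of natural numbers, of
finite sets. -/
def IsCuf (s : M) : Prop :=
  ∃ w F, (∀ n, Mem n w ↔ IsNat n) ∧ IsFunOn F w ∧ (∀ n A, App F n A → IsFinite A) ∧
    ∀ z, Mem z s ↔ ∃ n A, App F n A ∧ Mem z A

/-- `τ` is a topology on `X`: a family of subsets of `X` that contains `X` and is closed under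
intersections of two members and under unions of subfamilies. -/
def IsTopology (X τ : M) : Prop :=
  (∀ U, Mem U τ → Sub U X) ∧ Mem X τ ∧
  (∀ U V, Mem U τ → Mem V τ → ∃ W, Mem W τ ∧ ∀ z, Mem z W ↔ Mem z U ∧ Mem z V) ∧
  ∀ F, Sub F τ → ∃ W, Mem W τ ∧ ∀ z, Mem z W ↔ ∃ U, Mem U F ∧ Mem z U

/-- `C` is a closed subset of the space: a subset of `X` whose complement is open. -/
def IsClosedIn (X τ C : M) : Prop :=
  Sub C X ∧ ∃ U, Mem U τ ∧ ∀ z, Mem z U ↔ Mem z X ∧ ¬ Mem z C

/-- The space is Hausdorff. -/
def IsHausdorff (X τ : M) : Prop :=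
  ∀ x y, Mem x X → Mem y X → x ≠ y →
    ∃ U V, Mem U τ ∧ Mem V τ ∧ Mem x U ∧ Mem y V ∧ ∀ z, ¬ (Mem z U ∧ Mem z V)

/-- The space is compact: every open cover has a finite subcover. -/
def IsCompactSpace (X τ : M) : Prop :=
  ∀ F, Sub F τ → (∀ x, Mem x X → ∃ U, Mem U F ∧ Mem x U) →
    ∃ G, Sub G F ∧ IsFinite G ∧ ∀ x, Mem x X → ∃ U, Mem U G ∧ Mem x U

/-- The space is scattered: every nonempty subspace has an isolated point. -/
def IsScattered (X τ : M) : Prop :=
  ∀ S, Sub S X → (∃ x, Mem x S) →
    ∃ x U, Mem U τ ∧ ∀ z, (Mem z U ∧ Mem z S) ↔ z = x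

/-- The space has a cuf base. -/
def HasCufBase (τ : M) : Prop :=
  ∃ B, IsCuf B ∧ Sub B τ ∧ ∀ U x, Mem U τ → Mem x U → ∃ V, Mem V B ∧ Mem x V ∧ Sub V U

/-- The space is weakly Loeb: the family `K` of its nonempty closed sets has a multiple choice
function, that is, a function that maps each member to a nonempty finite subset of it. -/
def IsWeaklyLoeb (X τ : M) : Prop :=
  ∃ K f, (∀ C, Mem C K ↔ IsClosedIn X τ C ∧ ∃ x, Mem x C) ∧ IsFunOn f K ∧
    ∀ C A, App f C A → (∃ x, Mem x A) ∧ IsFinite A ∧ Sub A C

/-- The elements of `x`, as a type. -/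
def El (x : M) : Type u := {z : M // Mem z x}

/-- The binary operation `f` on the elements of `a` is given by an element of the model. -/
def IsInternalOp {a : M} (f : El a → El a → El a) : Prop :=
  ∃ g : M, ∀ x y z : El a, f x y = z ↔ ∃ p, IsOrdPair p x.1 y.1 ∧ App g p z.1

/-- `R` carries, in the model, the structure of a complete ordered field: an ordered field whose
addition, multiplication and order are elements of the model and in which every nonempty bounded
subset that belongs to the model has a least upper bound. -/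
def IsRealField (R : M) : Prop :=
  ∃ (_ : Field (El R)) (_ : LinearOrder (El R)) (_ : IsStrictOrderedRing (El R)),
    IsInternalOp (fun x y : El R => x + y) ∧ IsInternalOp (fun x y : El R => x * y) ∧
    (∃ g : M, ∀ x y : El R, x ≤ y ↔ App g x.1 y.1) ∧
    ∀ s : M, (∃ x : El R, Mem x.1 s) → BddAbove {x : El R | Mem x.1 s} →
      ∃ x, IsLUB {x : El R | Mem x.1 s} x

/-- `R` is the power set of the set of natural numbers. -/
def IsPowerOfOmega (R : M) : Prop := ∀ z, Mem z R ↔ ∀ n, Mem n z → IsNat n

end Pool.Agent.H35Z.SetTop
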