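import Pool.Agent.H35Z.Cuf.Zer

/-!
# The Cantor scheme of deciding perfect sets
-/

set_option linter.unreachableTactic false
set_option linter.unusedTactic false
set_option linter.unusedVariables false
set_option linter.unusedSectionVars false

namespace Pool.Agent.H35Z.Cuf

open FirstOrder FirstOrder.Language Pool.Agent.Helper672.ZFA

universe u

variable {M : Type u} [L.Structure M] [hM : IsModel M]
variable {α : Type u} [ITy M α] {γ : Type u} [ITy M γ]


/-- All members of `D` below `Q` meet `V`. -/
def Frc (D : IPow M (IPow M α)) (Q V : IPow M α) : Prop := ∀ R, R ∈ D → R ⊆ Q → Mt R V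

theorem int_frc {D : γ → IPow M (IPow M α)} {Q V : γ → IPow M α} (hD : IntF M D) (hQ : IntF M Q)
    (hV : IntF M V) : Int M (fun c => Frc (D c) (Q c) (V c)) := by
  unfold Frc
  (repeat' (with_reducible (first | exact IntF.id | exact IntF.fst' | exact IntF.snd' | exact IntF.const _ | exact Int.const _ | assumption | apply IntF.comp hD | apply IntF.comp hQ | apply IntF.comp hV | apply intF_cl | apply int_cld | apply int_dj | apply int_mt | apply Int.and | apply Int.or | apply Int.imp | apply Int.iff | apply Int.ne | apply Int.not | apply Int.all | apply Int.ex | apply Int.unique | apply Int.eq | apply Int.mem | apply Int.subset | apply Int.fin | apply Int.ltN | apply Int.leN | apply IntF.fst | apply IntF.snd | apply IntF.app | apply IntF.sep | apply IntF.lam | apply IntF.insert | apply IntF.singleton | apply IntF.union | apply IntF.inter | apply IntF.sdiff | apply IntF.isUnion | apply IntF.iimage | apply IntF.succ | apply IntF.ite | apply IntF.the | apply IntF.irec)))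

theorem Frc.mono {D : IPow M (IPow M α)} {Q Q' V V' : IPow M α} (h : Frc D Q V) (hQ : Q' ⊆ Q)
    (hV : V ⊆ V') : Frc D Q' V' := fun R hR hRQ => by
  obtain ⟨x, h1, h2⟩ := h R hR fun z hz => hQ z (hRQ z hz)
  exact ⟨x, h1, hV x h2⟩


namespace Sp

variable (S : Sp M α)

/-- All members of `D` below `Q` meet two fixed disjoint closed subsets of `U`. -/
def Spl (D : IPow M (IPow M α)) (Q U : IPow M α) : Prop :=
  ∃ C₁ C₂, Cld S.τ C₁ ∧ Cld S.τ C₂ ∧ C₁ ⊆ U ∧ C₂ ⊆ U ∧ Dj C₁ C₂ ∧ Frc D Q C₁ ∧ Frc D Q C₂

theorem int_spl {D : γ → IPow M (IPow M α)} {Q V : γ → IPow M α} (hD : IntF M D) (hQ : IntF M Q)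
    (hV : IntF M V) : Int M (fun c => S.Spl (D c) (Q c) (V c)) := by
  unfold Spl
  (repeat' (with_reducible (first | exact IntF.id | exact IntF.fst' | exact IntF.snd' | exact IntF.const _ | exact Int.const _ | assumption | apply IntF.comp hD | apply IntF.comp hQ | apply IntF.comp hV | apply intF_cl | apply int_cld | apply int_dj | apply int_mt | apply int_frc | apply Int.and | apply Int.or | apply Int.imp | apply Int.iff | apply Int.ne | apply Int.not | apply Int.all | apply Int.ex | apply Int.unique | apply Int.eq | apply Int.mem | apply Int.subset | apply Int.fin | apply Int.ltN | apply Int.leN | apply IntF.fst | apply IntF.snd | apply IntF.app | apply IntF.sep | apply IntF.lam | apply IntF.insert | apply IntF.singleton | apply IntF.union | apply IntF.inter | apply IntF.sdiff | apply IntF.isUnion | apply IntF.iimage | apply IntF.succ | apply IntF.ite | apply IntF.the | apply IntF.irec)))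

theorem spl_mono {D : IPow M (IPow M α)} {Q Q' U : IPow M α} (h : S.Spl D Q U) (hQ : Q' ⊆ Q) :
    S.Spl D Q' U := by
  obtain ⟨C₁, C₂, h1, h2, h3, h4, h5, h6, h7⟩ := h
  exact ⟨C₁, C₂, h1, h2, h3, h4, h5, h6.mono hQ fun _ => id, h7.mono hQ fun _ => id⟩

/-- `Q` decides `V`. -/
def Dec1 (D : IPow M (IPow M α)) (Q V : IPow M α) : Prop :=
  (Dj Q V ∨ Frc D Q V) ∧ (S.Spl D Q V ∨ ∀ R, R ∈ D → R ⊆ Q → ¬ S.Spl D R V)

theorem int_dec1 {D : γ → IPow M (IPow M α)} {Q V : γ → IPow M α} (hD : IntF M D)
    (hQ : IntF M Q) (hV : IntF M V) : Int M (fun c => S.Dec1 (D c) (Q c) (V c)) := by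
  unfold Dec1
  (repeat' (with_reducible (first | exact IntF.id | exact IntF.fst' | exact IntF.snd' | exact IntF.const _ | exact Int.const _ | assumption | apply IntF.comp hD | apply IntF.comp hQ | apply IntF.comp hV | apply int_spl | apply intF_cl | apply int_cld | apply int_dj | apply int_mt | apply int_frc | apply Int.and | apply Int.or | apply Int.imp | apply Int.iff | apply Int.ne | apply Int.not | apply Int.all | apply Int.ex | apply Int.unique | apply Int.eq | apply Int.mem | apply Int.subset | apply Int.fin | apply Int.ltN | apply Int.leN | apply IntF.fst | apply IntF.snd | apply IntF.app | apply IntF.sep | apply IntF.lam | apply IntF.insert | apply IntF.singleton | apply IntF.union | apply IntF.inter | apply IntF.sdiff | apply IntF.isUnion | apply IntF.iimage | apply IntF.succ | apply IntF.ite | apply IntF.the | apply IntF.irec)))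

theorem dec1_mono {D : IPow M (IPow M α)} {Q Q' V : IPow M α} (h : S.Dec1 D Q V) (hQ : Q' ⊆ Q) :
    S.Dec1 D Q' V := by
  refine ⟨h.1.imp (fun h1 x hx => h1 x (hQ x hx)) fun h1 => h1.mono hQ fun _ => id,
    h.2.imp (fun h1 => S.spl_mono h1 hQ) fun h1 R hR hRQ => h1 R hR fun z hz => hQ z (hRQ z hz)⟩

theorem exists_dec1 {D : IPow M (IPow M α)} {P : IPow M α} (hP : P ∈ D) (V : IPow M α) :
    ∃ Q, Q ∈ D ∧ Q ⊆ P ∧ S.Dec1 D Q V := by
  have h1 : ∃ Q, Q ∈ D ∧ Q ⊆ P ∧ (Dj Q V ∨ Frc D Q V) := by
    by_cases h : Frc D P V
    · exact ⟨P, hP, fun _ => id, Or.inr h⟩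
    · unfold Frc at h
      push Not at h
      obtain ⟨R, h1, h2, h3⟩ := h
      exact ⟨R, h1, h2, Or.inl (not_mt.1 h3)⟩
  obtain ⟨Q, h2, h3, h4⟩ := h1
  by_cases h : ∀ R, R ∈ D → R ⊆ Q → ¬ S.Spl D R V
  · exact ⟨Q, h2, h3, h4, Or.inr h⟩
  · push Not at h
    obtain ⟨R, h5, h6, h7⟩ := h
    exact ⟨R, h5, fun z hz => h3 z (h6 z hz), h4.imp (fun h1 x hx => h1 x (h6 x hx))
      fun h1 => h1.mono h6 fun _ => id, Or.inl h7⟩

/-- `Q` decides all sets of level `n`. -/
def Dec (D : IPow M (IPow M α)) (Q : IPow M α) (n : INat M) : Prop :=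
  ∀ V, V ∈ S.B n → S.Dec1 D Q V

theorem int_dec {D : γ → IPow M (IPow M α)} {Q : γ → IPow M α} {n : γ → INat M} (hD : IntF M D)
    (hQ : IntF M Q) (hn : IntF M n) : Int M (fun c => S.Dec (D c) (Q c) (n c)) := by
  unfold Dec
  (repeat' (with_reducible (first | exact IntF.id | exact IntF.fst' | exact IntF.snd' | exact IntF.const _ | exact Int.const _ | assumption | apply IntF.comp hD | apply IntF.comp hQ | apply IntF.comp hn | apply int_dec1 | apply intF_cl | apply int_cld | apply int_dj | apply int_mt | apply int_frc | apply Int.and | apply Int.or | apply Int.imp | apply Int.iff | apply Int.ne | apply Int.not | apply Int.all | apply Int.ex | apply Int.unique | apply Int.eq | apply Int.mem | apply Int.subset | apply Int.fin | apply Int.ltN | apply Int.leN | apply IntF.fst | apply IntF.snd | apply IntF.app | apply IntF.sep | apply IntF.lam | apply IntF.insert | apply IntF.singleton | apply IntF.union | apply IntF.inter | apply IntF.sdiff | apply IntF.isUnion | apply IntF.iimage | apply IntF.succ | apply IntF.ite | apply IntF.the | apply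 IntF.irec)))

theorem exists_dec {D : IPow M (IPow M α)} {P : IPow M α} (hP : P ∈ D) (n : INat M) :
    ∃ Q, Q ∈ D ∧ Q ⊆ P ∧ S.Dec D Q n := by
  refine IFin.ind (p := fun F : IPow M (IPow M α) =>
    ∃ Q, Q ∈ D ∧ Q ⊆ P ∧ ∀ V, V ∈ F → S.Dec1 D Q V) (by (repeat' (with_reducible (first | exact IntF.id | exact IntF.fst' | exact IntF.snd' | exact IntF.const _ | exact Int.const _ | assumption | apply int_dec1 | apply intF_cl | apply int_cld | apply int_dj | apply int_mt | apply int_frc | apply Int.and | apply Int.or | apply Int.imp | apply Int.iff | apply Int.ne | apply Int.not | apply Int.all | apply Int.ex | apply Int.unique | apply Int.eq | apply Int.mem | apply Int.subset | apply Int.fin | apply Int.ltN | apply Int.leN | apply IntF.fst | apply IntF.snd | apply IntF.app | apply IntF.sep | apply IntF.lam | apply IntF.insert | apply IntF.singleton | apply IntF.union | apply IntF.inter | apply IntF.sdiff | apply IntF.isUnion | apply IntF.iimage | apply IntF.succ | apply IntF.ite | apply IntF.the | apply IntF.irec)))) ?_ ?_ _ (S.Bfin n)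
  · exact ⟨P, hP, fun _ => id, fun V hV => by simp at hV⟩
  · rintro F V _ _ ⟨Q, h1, h2, h3⟩
    obtain ⟨R, h4, h5, h6⟩ := S.exists_dec1 h1 V
    refine ⟨R, h4, fun z hz => h2 z (h5 z hz), fun W hW => ?_⟩
    rcases mem_insert.1 hW with rfl | hW
    · exact h6
    · exact S.dec1_mono (h3 W hW) h5

open Classical in
/-- One step of the scheme. -/
noncomputable def step (D : IPow M (IPow M α)) (c : IFun M (IPow M (IPow M α)) (IPow M α))
    (σ : IPow M (INat M)) (n : INat M) (P : IPow M α) : IPow M α :=
  c (sep M fun Q => Q ⊆ (if n ∈ σ then S.sp1 P else S.sp0 P) ∧ S.Dec D Q n)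

theorem intF_step {D : γ → IPow M (IPow M α)} {c : γ → IFun M (IPow M (IPow M α)) (IPow M α)}
    {σ : γ → IPow M (INat M)} {n : γ → INat M} {P : γ → IPow M α} (hD : IntF M D)
    (hc : IntF M c) (hσ : IntF M σ) (hn : IntF M n) (hP : IntF M P) :
    IntF M (fun a => S.step (D a) (c a) (σ a) (n a) (P a)) := by
  unfold step
  (repeat' (with_reducible (first | exact IntF.id | exact IntF.fst' | exact IntF.snd' | exact IntF.const _ | exact Int.const _ | assumption | apply IntF.comp hD | apply IntF.comp hc | apply IntF.comp hσ | apply IntF.comp hn | apply IntF.comp hP | apply int_dec | apply intF_sp0 | apply intF_sp1 | apply intF_cl | apply int_cld | apply int_dj | apply int_mt | apply int_frc | apply Int.and | apply Int.or | apply Int.imp | apply Int.iff | apply Int.ne | apply Int.not | apply Int.all | apply Int.ex | apply Int.unique | apply Int.eq | apply Int.mem | apply Int.subset | apply Int.fin | apply Int.ltN | apply Int.leN | apply IntF.fst | apply IntF.snd | apply IntF.app | apply IntF.sep | apply IntF.lam | apply IntF.insert | apply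 IntF.singleton | apply IntF.union | apply IntF.inter | apply IntF.sdiff | apply IntF.isUnion | apply IntF.iimage | apply IntF.succ | apply IntF.ite | apply IntF.the | apply IntF.irec)))

/-- The scheme. -/
noncomputable def sch (D : IPow M (IPow M α)) (c : IFun M (IPow M (IPow M α)) (IPow M α))
    (σ : IPow M (INat M)) (n : INat M) : IPow M α := irec (c D) (S.step D c σ) n

theorem intF_sch {D : γ → IPow M (IPow M α)} {c : γ → IFun M (IPow M (IPow M α)) (IPow M α)}
    {σ : γ → IPow M (INat M)} {n : γ → INat M} (hD : IntF M D)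
    (hc : IntF M c) (hσ : IntF M σ) (hn : IntF M n) :
    IntF M (fun a => S.sch (D a) (c a) (σ a) (n a)) := by
  unfold sch
  (repeat' (with_reducible (first | exact IntF.id | exact IntF.fst' | exact IntF.snd' | exact IntF.const _ | exact Int.const _ | assumption | apply IntF.comp hD | apply IntF.comp hc | apply IntF.comp hσ | apply IntF.comp hn | apply intF_step | apply intF_cl | apply int_cld | apply int_dj | apply int_mt | apply int_frc | apply Int.and | apply Int.or | apply Int.imp | apply Int.iff | apply Int.ne | apply Int.not | apply Int.all | apply Int.ex | apply Int.unique | apply Int.eq | apply Int.mem | apply Int.subset | apply Int.fin | apply Int.ltN | apply Int.leN | apply IntF.fst | apply IntF.snd | apply IntF.app | apply IntF.sep | apply IntF.lam | apply IntF.insert | apply IntF.singleton | apply IntF.union | apply IntF.inter | apply IntF.sdiff | apply IntF.isUnion | apply IntF.iimage | apply IntF.succ | apply IntF.ite | apply IntF.the | apply IntF.irec)))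

/-- The limit sets of the scheme. -/
noncomputable def lim (D : IPow M (IPow M α)) (c : IFun M (IPow M (IPow M α)) (IPow M α))
    (σ : IPow M (INat M)) : IPow M α := sep M fun x => ∀ n, x ∈ S.sch D c σ n

theorem intF_lim {D : γ → IPow M (IPow M α)} {c : γ → IFun M (IPow M (IPow M α)) (IPow M α)}
    {σ : γ → IPow M (INat M)} (hD : IntF M D) (hc : IntF M c) (hσ : IntF M σ) :
    IntF M (fun a => S.lim (D a) (c a) (σ a)) := by
  unfold lim
  (repeat' (with_reducible (first | exact IntF.id | exact IntF.fst' | exact IntF.snd' | exact IntF.const _ | exact Int.const _ | assumption | apply IntF.comp hD | apply IntF.comp hc | apply IntF.comp hσ | apply intF_sch | apply intF_cl | apply int_cld | apply int_dj | apply int_mt | apply int_frc | apply Int.and | apply Int.or | apply Int.imp | apply Int.iff | apply Int.ne | apply Int.not | apply Int.all | apply Int.ex | apply Int.unique | apply Int.eq | apply Int.mem | apply Int.subset | apply Int.fin | apply Int.ltN | apply Int.leN | apply IntF.fst | apply IntF.snd | apply IntF.app | apply IntF.sep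 | apply IntF.lam | apply IntF.insert | apply IntF.singleton | apply IntF.union | apply IntF.inter | apply IntF.sdiff | apply IntF.isUnion | apply IntF.iimage | apply IntF.succ | apply IntF.ite | apply IntF.the | apply IntF.irec)))

theorem mem_lim {D : IPow M (IPow M α)} {c : IFun M (IPow M (IPow M α)) (IPow M α)}
    {σ : IPow M (INat M)} {x : α} : x ∈ S.lim D c σ ↔ ∀ n, x ∈ S.sch D c σ n := by
  unfold lim
  rw [mem_sep (by (repeat' (with_reducible (first | exact IntF.id | exact IntF.fst' | exact IntF.snd' | exact IntF.const _ | exact Int.const _ | assumption | apply intF_sch | apply intF_cl | apply int_cld | apply int_dj | apply int_mt | apply int_frc | apply Int.and | apply Int.or | apply Int.imp | apply Int.iff | apply Int.ne | apply Int.not | apply Int.all | apply Int.ex | apply Int.unique | apply Int.eq | apply Int.mem | apply Int.subset | apply Int.fin | apply Int.ltN | apply Int.leN | apply IntF.fst | apply IntF.snd | apply IntF.app | apply IntF.sep | apply IntF.lam | apply IntF.insert | apply IntF.singleton | apply IntF.union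 | apply IntF.inter | apply IntF.sdiff | apply IntF.isUnion | apply IntF.iimage | apply IntF.succ | apply IntF.ite | apply IntF.the | apply IntF.irec))))]

theorem sch_zero (D : IPow M (IPow M α)) (c : IFun M (IPow M (IPow M α)) (IPow M α))
    (σ : IPow M (INat M)) : S.sch D c σ 0 = c D :=
  irec_zero (by (repeat' (with_reducible (first | exact IntF.id | exact IntF.fst' | exact IntF.snd' | exact IntF.const _ | exact Int.const _ | assumption | apply intF_step | apply intF_cl | apply int_cld | apply int_dj | apply int_mt | apply int_frc | apply Int.and | apply Int.or | apply Int.imp | apply Int.iff | apply Int.ne | apply Int.not | apply Int.all | apply Int.ex | apply Int.unique | apply Int.eq | apply Int.mem | apply Int.subset | apply Int.fin | apply Int.ltN | apply Int.leN | apply IntF.fst | apply IntF.snd | apply IntF.app | apply IntF.sep | apply IntF.lam | apply IntF.insert | apply IntF.singleton | apply IntF.union | apply IntF.inter | apply IntF.sdiff | apply IntF.isUnion | apply IntF.iimage | apply IntF.succ | apply IntF.ite | apply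 IntF.the | apply IntF.irec))))

theorem sch_succ (D : IPow M (IPow M α)) (c : IFun M (IPow M (IPow M α)) (IPow M α))
    (σ : IPow M (INat M)) (n : INat M) :
    S.sch D c σ n.succ = S.step D c σ n (S.sch D c σ n) :=
  irec_succ (by (repeat' (with_reducible (first | exact IntF.id | exact IntF.fst' | exact IntF.snd' | exact IntF.const _ | exact Int.const _ | assumption | apply intF_step | apply intF_cl | apply int_cld | apply int_dj | apply int_mt | apply int_frc | apply Int.and | apply Int.or | apply Int.imp | apply Int.iff | apply Int.ne | apply Int.not | apply Int.all | apply Int.ex | apply Int.unique | apply Int.eq | apply Int.mem | apply Int.subset | apply Int.fin | apply Int.ltN | apply Int.leN | apply IntF.fst | apply IntF.snd | apply IntF.app | apply IntF.sep | apply IntF.lam | apply IntF.insert | apply IntF.singleton | apply IntF.union | apply IntF.inter | apply IntF.sdiff | apply IntF.isUnion | apply IntF.iimage | apply IntF.succ | apply IntF.ite | apply IntF.the | apply IntF.irec)))) n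

theorem sch_congr (D : IPow M (IPow M α)) (c : IFun M (IPow M (IPow M α)) (IPow M α))
    {σ σ' : IPow M (INat M)} (n : INat M) (h : ∀ i, i < n → (i ∈ σ ↔ i ∈ σ')) :
    S.sch D c σ n = S.sch D c σ' n := by
  revert h
  refine INat.ind (p := fun n => (∀ i, i < n → (i ∈ σ ↔ i ∈ σ')) →
    S.sch D c σ n = S.sch D c σ' n) (by (repeat' (with_reducible (first | exact IntF.id | exact IntF.fst' | exact IntF.snd' | exact IntF.const _ | exact Int.const _ | assumption | apply intF_sch | apply intF_cl | apply int_cld | apply int_dj | apply int_mt | apply int_frc | apply Int.and | apply Int.or | apply Int.imp | apply Int.iff | apply Int.ne | apply Int.not | apply Int.all | apply Int.ex | apply Int.unique | apply Int.eq | apply Int.mem | apply Int.subset | apply Int.fin | apply Int.ltN | apply Int.leN | apply IntF.fst | apply IntF.snd | apply IntF.app | apply IntF.sep | apply IntF.lam | apply IntF.insert | apply IntF.singleton | apply IntF.union | apply IntF.inter | apply IntF.sdiff | apply IntF.isUnion | apply IntF.iimage | apply IntF.succ | apply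 IntF.ite | apply IntF.the | apply IntF.irec)))) ?_ ?_ n
  · intro _
    rw [sch_zero, sch_zero]
  · intro n ih h
    rw [sch_succ, sch_succ, ih fun i hi => h i (hi.trans (INat.lt_succ_self n))]
    unfold step
    by_cases h1 : n ∈ σ
    · have h2 : n ∈ σ' := (h n (INat.lt_succ_self n)).1 h1
      simp only [if_pos h1, if_pos h2]
    · have h2 : ¬ n ∈ σ' := fun h3 => h1 ((h n (INat.lt_succ_self n)).2 h3)
      simp only [if_neg h1, if_neg h2]

/-- Nonempty families of perfect sets, closed under halving, with a choice function. -/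
structure Good (D : IPow M (IPow M α)) (c : IFun M (IPow M (IPow M α)) (IPow M α)) : Prop where
  perf : ∀ P, P ∈ D → S.Perf P
  ch : Ch D c
  ne : ∃ P, P ∈ D
  sp : ∀ P, P ∈ D → S.sp0 P ∈ D ∧ S.sp1 P ∈ D

variable {S} {D : IPow M (IPow M α)} {c : IFun M (IPow M (IPow M α)) (IPow M α)}

namespace Good

open Classical in
theorem step_spec (h : S.Good D c) (σ : IPow M (INat M)) (n : INat M) {P : IPow M α}
    (hP : P ∈ D) : S.step D c σ n P ∈ D ∧
      S.step D c σ n P ⊆ (if n ∈ σ then S.sp1 P else S.sp0 P) ∧ S.Dec D (S.step D c σ n P) n := by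
  have h1 : (if n ∈ σ then S.sp1 P else S.sp0 P) ∈ D := by
    split_ifs
    · exact (h.sp P hP).2
    · exact (h.sp P hP).1
  obtain ⟨Q, h2, h3, h4⟩ := S.exists_dec h1 n
  have hi : Int M (fun Q : IPow M α => Q ⊆ (if n ∈ σ then S.sp1 P else S.sp0 P) ∧
      S.Dec D Q n) := by (repeat' (with_reducible (first | exact IntF.id | exact IntF.fst' | exact IntF.snd' | exact IntF.const _ | exact Int.const _ | assumption | apply int_dec | apply intF_cl | apply int_cld | apply int_dj | apply int_mt | apply int_frc | apply Int.and | apply Int.or | apply Int.imp | apply Int.iff | apply Int.ne | apply Int.not | apply Int.all | apply Int.ex | apply Int.unique | apply Int.eq | apply Int.mem | apply Int.subset | apply Int.fin | apply Int.ltN | apply Int.leN | apply IntF.fst | apply IntF.snd | apply IntF.app | apply IntF.sep | apply IntF.lam | apply IntF.insert | apply IntF.singleton | apply IntF.union | apply IntF.inter | apply IntF.sdiff | apply IntF.isUnion | apply IntF.iimage | apply IntF.succ | apply IntF.ite | apply IntF.the | apply IntF.irec)))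
  have h5 := h.ch (sep M fun Q => Q ⊆ (if n ∈ σ then S.sp1 P else S.sp0 P) ∧ S.Dec D Q n)
    ⟨Q, (mem_sep hi).2 ⟨h3, h4⟩, h2⟩
  exact ⟨h5.2, (mem_sep hi).1 h5.1⟩

theorem sch_mem (h : S.Good D c) (σ : IPow M (INat M)) (n : INat M) : S.sch D c σ n ∈ D := by
  refine INat.ind (p := fun n => S.sch D c σ n ∈ D) (by (repeat' (with_reducible (first | exact IntF.id | exact IntF.fst' | exact IntF.snd' | exact IntF.const _ | exact Int.const _ | assumption | apply intF_sch | apply intF_cl | apply int_cld | apply int_dj | apply int_mt | apply int_frc | apply Int.and | apply Int.or | apply Int.imp | apply Int.iff | apply Int.ne | apply Int.not | apply Int.all | apply Int.ex | apply Int.unique | apply Int.eq | apply Int.mem | apply Int.subset | apply Int.fin | apply Int.ltN | apply Int.leN | apply IntF.fst | apply IntF.snd | apply IntF.app | apply IntF.sep | apply IntF.lam | apply IntF.insert | apply IntF.singleton | apply IntF.union | apply IntF.inter | apply IntF.sdiff | apply IntF.isUnion | apply IntF.iimage | apply IntF.succ | apply IntF.ite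 | apply IntF.the | apply IntF.irec)))) ?_ ?_ n
  · rw [sch_zero]
    obtain ⟨P, hP⟩ := h.ne
    exact (h.ch D ⟨P, hP, hP⟩).1
  · intro n ih
    rw [sch_succ]
    exact (h.step_spec σ n ih).1

theorem sch_dec (h : S.Good D c) (σ : IPow M (INat M)) (n : INat M) :
    S.Dec D (S.sch D c σ n.succ) n := by
  rw [sch_succ]
  exact (h.step_spec σ n (h.sch_mem σ n)).2.2

theorem sch_one (h : S.Good D c) {σ : IPow M (INat M)} {n : INat M} (hn : n ∈ σ) :
    S.sch D c σ n.succ ⊆ S.sp1 (S.sch D c σ n) := by
  have h1 := (h.step_spec σ n (h.sch_mem σ n)).2.1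
  rw [if_pos hn] at h1
  rwa [sch_succ]

theorem sch_nil (h : S.Good D c) {σ : IPow M (INat M)} {n : INat M} (hn : ¬ n ∈ σ) :
    S.sch D c σ n.succ ⊆ S.sp0 (S.sch D c σ n) := by
  have h1 := (h.step_spec σ n (h.sch_mem σ n)).2.1
  rw [if_neg hn] at h1
  rwa [sch_succ]

theorem sch_succ_subset (h : S.Good D c) (σ : IPow M (INat M)) (n : INat M) :
    S.sch D c σ n.succ ⊆ S.sch D c σ n := by
  have hP := h.perf _ (h.sch_mem σ n)
  by_cases hn : n ∈ σ
  · exact fun x hx => hP.sp1.2.1 x (h.sch_one hn x hx)
  · exact fun x hx => hP.sp0.2.1 x (h.sch_nil hn x hx)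

theorem sch_anti (h : S.Good D c) (σ : IPow M (INat M)) (m n : INat M) (hmn : m ≤ n) :
    S.sch D c σ n ⊆ S.sch D c σ m := by
  revert hmn
  refine INat.ind (p := fun n => m ≤ n → S.sch D c σ n ⊆ S.sch D c σ m) (by (repeat' (with_reducible (first | exact IntF.id | exact IntF.fst' | exact IntF.snd' | exact IntF.const _ | exact Int.const _ | assumption | apply intF_sch | apply intF_cl | apply int_cld | apply int_dj | apply int_mt | apply int_frc | apply Int.and | apply Int.or | apply Int.imp | apply Int.iff | apply Int.ne | apply Int.not | apply Int.all | apply Int.ex | apply Int.unique | apply Int.eq | apply Int.mem | apply Int.subset | apply Int.fin | apply Int.ltN | apply Int.leN | apply IntF.fst | apply IntF.snd | apply IntF.app | apply IntF.sep | apply IntF.lam | apply IntF.insert | apply IntF.singleton | apply IntF.union | apply IntF.inter | apply IntF.sdiff | apply IntF.isUnion | apply IntF.iimage | apply IntF.succ | apply IntF.ite | apply IntF.the | apply IntF.irec))))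
    ?_ ?_ n
  · intro h1
    rw [le_antisymm h1 (INat.zero_le m)]
    exact fun _ => id
  · intro n ih h1
    rcases h1.lt_or_eq with h2 | h2
    · exact fun x hx => ih (INat.lt_succ_iff.1 h2) x (h.sch_succ_subset σ n x hx)
    · rw [h2]
      exact fun _ => id

theorem lim_cld (h : S.Good D c) (σ : IPow M (INat M)) : Cld S.τ (S.lim D c σ) := fun x hx =>
  S.mem_lim.2 fun n => (h.perf _ (h.sch_mem σ n)).1 x
    (cl_mono (fun z hz => S.mem_lim.1 hz n) x hx)

theorem lim_mt (h : S.Good D c) {σ : IPow M (INat M)} {C : IPow M α} (hC : Cld S.τ C)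
    {k : INat M} (hk : Frc D (S.sch D c σ k) C) : Mt (S.lim D c σ) C := by
  obtain ⟨x, hx⟩ := S.inter_nonempty (C := fun n => S.sch D c σ n ∩ C) (by (repeat' (with_reducible (first | exact IntF.id | exact IntF.fst' | exact IntF.snd' | exact IntF.const _ | exact Int.const _ | assumption | apply intF_sch | apply intF_cl | apply int_cld | apply int_dj | apply int_mt | apply int_frc | apply Int.and | apply Int.or | apply Int.imp | apply Int.iff | apply Int.ne | apply Int.not | apply Int.all | apply Int.ex | apply Int.unique | apply Int.eq | apply Int.mem | apply Int.subset | apply Int.fin | apply Int.ltN | apply Int.leN | apply IntF.fst | apply IntF.snd | apply IntF.app | apply IntF.sep | apply IntF.lam | apply IntF.insert | apply IntF.singleton | apply IntF.union | apply IntF.inter | apply IntF.sdiff | apply IntF.isUnion | apply IntF.iimage | apply IntF.succ | apply IntF.ite | apply IntF.the | apply IntF.irec))))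
    (fun n => cld_inter (h.perf _ (h.sch_mem σ n)).1 hC) (fun n => by
      obtain ⟨x, h1, h2⟩ := hk _ (h.sch_mem σ (max n k)) (h.sch_anti σ _ _ (le_max_right _ _))
      exact ⟨x, mem_inter.2 ⟨h.sch_anti σ _ _ (le_max_left _ _) x h1, h2⟩⟩) (fun m n hmn x hx => by
      rw [mem_inter] at hx ⊢
      exact ⟨h.sch_anti σ _ _ hmn x hx.1, hx.2⟩)
  exact ⟨x, S.mem_lim.2 fun n => (mem_inter.1 (hx n)).1, (mem_inter.1 (hx 0)).2⟩

theorem frc_of_mem (h : S.Good D c) {σ : IPow M (INat M)} {n : INat M} {V : IPow M α}
    (hV : V ∈ S.B n) {x : α} (hx : x ∈ S.lim D c σ) (hxV : x ∈ V) :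
    Frc D (S.sch D c σ n.succ) V :=
  (h.sch_dec σ n V hV).1.resolve_left fun h1 => h1 x (S.mem_lim.1 hx _) hxV

theorem lim_ne (h : S.Good D c) (σ : IPow M (INat M)) : ∃ x, x ∈ S.lim D c σ := by
  obtain ⟨x, hx, -⟩ := h.lim_mt (σ := σ) S.cld_univ (k := 0) fun R hR _ => by
    obtain ⟨x, hx⟩ := (h.perf R hR).2.1
    exact ⟨x, hx, by simp⟩
  exact ⟨x, hx⟩

theorem lim_inj (h : S.Good D c) {σ σ' : IPow M (INat M)} {x : α} (hx : x ∈ S.lim D c σ)
    (hx' : x ∈ S.lim D c σ') : σ = σ' := by
  by_contra hne
  have h1 : ∃ i, ¬ (i ∈ σ ↔ i ∈ σ') := by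
    by_contra h2
    push Not at h2
    exact hne (IPow.ext' h2)
  obtain ⟨i, h2, h3⟩ := INat.exists_least (p := fun i => ¬ (i ∈ σ ↔ i ∈ σ')) (by (repeat' (with_reducible (first | exact IntF.id | exact IntF.fst' | exact IntF.snd' | exact IntF.const _ | exact Int.const _ | assumption | apply intF_cl | apply int_cld | apply int_dj | apply int_mt | apply int_frc | apply Int.and | apply Int.or | apply Int.imp | apply Int.iff | apply Int.ne | apply Int.not | apply Int.all | apply Int.ex | apply Int.unique | apply Int.eq | apply Int.mem | apply Int.subset | apply Int.fin | apply Int.ltN | apply Int.leN | apply IntF.fst | apply IntF.snd | apply IntF.app | apply IntF.sep | apply IntF.lam | apply IntF.insert | apply IntF.singleton | apply IntF.union | apply IntF.inter | apply IntF.sdiff | apply IntF.isUnion | apply IntF.iimage | apply IntF.succ | apply IntF.ite | apply IntF.the | apply IntF.irec)))) h1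
  have h4 : S.sch D c σ i = S.sch D c σ' i := S.sch_congr D c i fun j hj => by
    by_contra h5
    exact absurd (h3 j h5) (not_le.2 hj)
  have hP := h.perf _ (h.sch_mem σ i)
  by_cases hi : i ∈ σ
  · have hi' : ¬ i ∈ σ' := fun h5 => h2 ⟨fun _ => h5, fun _ => hi⟩
    have h6 := h.sch_nil hi' x (S.mem_lim.1 hx' _)
    rw [← h4] at h6
    exact hP.sp1.2.2 x (h.sch_one hi x (S.mem_lim.1 hx _)) h6
  · have hi' : i ∈ σ' := by
      by_contra h5
      exact h2 ⟨fun h6 => absurd h6 hi, fun h6 => absurd h6 h5⟩
    have h6 := h.sch_one hi' x (S.mem_lim.1 hx' _)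
    rw [← h4] at h6
    exact hP.sp1.2.2 x h6 (h.sch_nil hi x (S.mem_lim.1 hx _))

/-- A limit set is never a member of the family. -/
theorem lim_not_mem (h : S.Good D c) (σ : IPow M (INat M)) : ¬ S.lim D c σ ∈ D := by
  intro hK
  have hP := h.perf _ hK
  obtain ⟨x, hx⟩ := hP.sp1.1.2.1
  obtain ⟨n, V, hV, hxV, h1⟩ := S.regular_base hP.sp0.1.1 (hP.sp1.2.2 x hx)
  obtain ⟨y, h2, h3⟩ := h.frc_of_mem hV (hP.sp1.2.1 x hx) hxV _ (h.sp _ hK).1
    fun z hz => S.mem_lim.1 (hP.sp0.2.1 z hz) _
  exact h1 y (subset_cl V y h3) h2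

/-- An isolated point of a limit set spreads to all nearby limit sets. -/
theorem unique_near (h : S.Good D c) {σ : IPow M (INat M)} {x : α} {O : IPow M α}
    (hx : x ∈ S.lim D c σ) (hO : O ∈ S.τ) (hxO : x ∈ O)
    (hiso : ∀ y, y ∈ S.lim D c σ → y ∈ O → y = x) :
    ∃ (k : INat M) (U : IPow M α), ∀ σ' : IPow M (INat M), (∀ i, i < k → (i ∈ σ' ↔ i ∈ σ)) →
      ∃! y, y ∈ S.lim D c σ' ∧ y ∈ U := by
  obtain ⟨n, U, hU, hxU, hUO⟩ := S.Bbase O x hO hxO
  have hUo := S.Bopen n U hU
  obtain ⟨m, V, hV, hxV, hVU⟩ := S.regular_base' hUo hxU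
  have hns : ∀ R, R ∈ D → R ⊆ S.sch D c σ n.succ → ¬ S.Spl D R U := by
    refine (h.sch_dec σ n U hU).2.resolve_left ?_
    rintro ⟨C₁, C₂, h1, h2, h3, h4, h5, h6, h7⟩
    obtain ⟨y, hy, hy'⟩ := h.lim_mt h1 h6
    obtain ⟨z, hz, hz'⟩ := h.lim_mt h2 h7
    have h8 : y = x := hiso y hy (hUO y (h3 y hy'))
    have h9 : z = x := hiso z hz (hUO z (h4 z hz'))
    exact h5 x (h8 ▸ hy') (h9 ▸ hz')
  refine ⟨max n.succ m.succ, U, fun σ' hσ' => ?_⟩
  have e1 : S.sch D c σ' n.succ = S.sch D c σ n.succ :=
    S.sch_congr D c _ fun i hi => hσ' i (hi.trans_le (le_max_left _ _))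
  have e2 : S.sch D c σ' m.succ = S.sch D c σ m.succ :=
    S.sch_congr D c _ fun i hi => hσ' i (hi.trans_le (le_max_right _ _))
  have h1 : Frc D (S.sch D c σ' m.succ) (cl S.τ V) := by
    rw [e2]
    exact (h.frc_of_mem hV hx hxV).mono (fun _ => id) (subset_cl V)
  obtain ⟨y, hy, hyV⟩ := h.lim_mt (cld_cl V) h1
  refine ⟨y, ⟨hy, hVU y hyV⟩, fun z hz => ?_⟩
  by_contra hne
  obtain ⟨O₁, O₂, hO₁, hO₂, hz₁, hy₂, hdj⟩ := S.haus z y hne
  obtain ⟨j₁, V₁, hV₁, hzV₁, h2⟩ := S.regular_base' (S.inter _ _ hO₁ hUo) (mem_inter.2 ⟨hz₁, hz.2⟩)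
  obtain ⟨j₂, V₂, hV₂, hyV₂, h3⟩ := S.regular_base' (S.inter _ _ hO₂ hUo)
    (mem_inter.2 ⟨hy₂, hVU y hyV⟩)
  refine hns (S.sch D c σ' (max n.succ (max j₁.succ j₂.succ))) (h.sch_mem _ _)
    (e1 ▸ h.sch_anti σ' _ _ (le_max_left _ _))
    ⟨cl S.τ V₁, cl S.τ V₂, cld_cl _, cld_cl _, fun w hw => (mem_inter.1 (h2 w hw)).2,
      fun w hw => (mem_inter.1 (h3 w hw)).2,
      fun w hw hw' => hdj w (mem_inter.1 (h2 w hw)).1 (mem_inter.1 (h3 w hw')).1, ?_, ?_⟩
  · exact (h.frc_of_mem hV₁ hz.1 hzV₁).mono
      (h.sch_anti σ' _ _ ((le_max_left _ _).trans (le_max_right _ _))) (subset_cl _)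
  · exact (h.frc_of_mem hV₂ hy hyV₂).mono
      (h.sch_anti σ' _ _ ((le_max_right _ _).trans (le_max_right _ _))) (subset_cl _)

end Good

end Sp

theorem le_add_right' (k i : INat M) : k ≤ k + i := by
  refine INat.ind (p := fun i => k ≤ k + i) (by (repeat' (with_reducible (first | exact IntF.id | exact IntF.fst' | exact IntF.snd' | exact IntF.const _ | exact Int.const _ | assumption | apply IntF.add | apply intF_cl | apply int_cld | apply int_dj | apply int_mt | apply int_frc | apply Int.and | apply Int.or | apply Int.imp | apply Int.iff | apply Int.ne | apply Int.not | apply Int.all | apply Int.ex | apply Int.unique | apply Int.eq | apply Int.mem | apply Int.subset | apply Int.fin | apply Int.ltN | apply Int.leN | apply IntF.fst | apply IntF.snd | apply IntF.app | apply IntF.sep | apply IntF.lam | apply IntF.insert | apply IntF.singleton | apply IntF.union | apply IntF.inter | apply IntF.sdiff | apply IntF.isUnion | apply IntF.iimage | apply IntF.succ | apply IntF.ite | apply IntF.the | apply IntF.irec)))) ?_ ?_ i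
  · rw [INat.add_zero']
  · intro i ih
    rw [INat.add_succ']
    exact ih.trans (INat.le_succ_self _)

namespace Sp

variable {S : Sp M α} {D : IPow M (IPow M α)} {c : IFun M (IPow M (IPow M α)) (IPow M α)}

/-- If a limit set is not perfect, the power set of the natural numbers injects in the space. -/
theorem Good.inj_of_not_perf (h : S.Good D c) (hn : ¬ S.Perf (S.lim D c ∅)) :
    ∃ g : IPow M (INat M) → α, IntF M g ∧ Function.Injective g := by
  have h1 : ∃ x O, x ∈ S.lim D c ∅ ∧ O ∈ S.τ ∧ x ∈ O ∧ ∀ y, y ∈ S.lim D c ∅ → y ∈ O → y = x := by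
    by_contra h2
    refine hn ⟨h.lim_cld _, h.lim_ne _, fun x U hx hU hxU => ?_⟩
    by_contra h3
    refine h2 ⟨x, U, hx, hU, hxU, fun y hy hyU => ?_⟩
    by_contra h4
    exact h3 ⟨y, hy, hyU, h4⟩
  obtain ⟨x, O, hx, hO, hxO, hiso⟩ := h1
  obtain ⟨k, U, hU⟩ := h.unique_near hx hO hxO hiso
  have hk : IntF M (fun i : INat M => k + i) := by (repeat' (with_reducible (first | exact IntF.id | exact IntF.fst' | exact IntF.snd' | exact IntF.const _ | exact Int.const _ | assumption | apply IntF.add | apply intF_cl | apply int_cld | apply int_dj | apply int_mt | apply int_frc | apply Int.and | apply Int.or | apply Int.imp | apply Int.iff | apply Int.ne | apply Int.not | apply Int.all | apply Int.ex | apply Int.unique | apply Int.eq | apply Int.mem | apply Int.subset | apply Int.fin | apply Int.ltN | apply Int.leN | apply IntF.fst | apply IntF.snd | apply IntF.app | apply IntF.sep | apply IntF.lam | apply IntF.insert | apply IntF.singleton | apply IntF.union | apply IntF.inter | apply IntF.sdiff | apply IntF.isUnion | apply IntF.iimage | apply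 IntF.succ | apply IntF.ite | apply IntF.the | apply IntF.irec)))
  have hu : ∀ ρ : IPow M (INat M), ∃! y, y ∈ S.lim D c (iimage (fun i => k + i) ρ) ∧ y ∈ U := by
    intro ρ
    refine hU _ fun i hi => ?_
    rw [mem_iimage hk, mem_empty, iff_false]
    rintro ⟨j, -, rfl⟩
    exact absurd (le_add_right' k j) (not_le.2 hi)
  refine ⟨fun ρ => the (fun y => y ∈ S.lim D c (iimage (fun i => k + i) ρ) ∧ y ∈ U) x,
    by (repeat' (with_reducible (first | exact IntF.id | exact IntF.fst' | exact IntF.snd' | exact IntF.const _ | exact Int.const _ | assumption | apply intF_lim | apply IntF.add | apply intF_cl | apply int_cld | apply int_dj | apply int_mt | apply int_frc | apply Int.and | apply Int.or | apply Int.imp | apply Int.iff | apply Int.ne | apply Int.not | apply Int.all | apply Int.ex | apply Int.unique | apply Int.eq | apply Int.mem | apply Int.subset | apply Int.fin | apply Int.ltN | apply Int.leN | apply IntF.fst | apply IntF.snd | apply IntF.app | apply IntF.sep | apply IntF.lam | apply IntF.insert | apply IntF.singleton | apply IntF.union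 | apply IntF.inter | apply IntF.sdiff | apply IntF.isUnion | apply IntF.iimage | apply IntF.succ | apply IntF.ite | apply IntF.the | apply IntF.irec))), fun ρ ρ' hρ => ?_⟩
  have h2 := (the_spec (d := x) (hu ρ)).1
  have h3 := (the_spec (d := x) (hu ρ')).1
  dsimp only at hρ
  rw [hρ] at h2
  have h4 := h.lim_inj h2 h3
  have h5 : ∀ (ρ : IPow M (INat M)) i, k + i ∈ iimage (fun i => k + i) ρ ↔ i ∈ ρ := by
    intro ρ i
    rw [mem_iimage hk]
    refine ⟨?_, fun hi => ⟨i, hi, rfl⟩⟩
    rintro ⟨j, hj, h6⟩
    rwa [← INat.add_left_cancel' h6]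
  refine IPow.ext' fun i => ?_
  rw [← h5 ρ, ← h5 ρ', h4]

open Classical in
/-- The main theorem, internal form. -/
theorem main (S : Sp M α) {P₀ : IPow M α} (h₀ : S.Perf P₀) :
    ∃ g : IPow M (INat M) → α, IntF M g ∧ Function.Injective g := by
  by_contra hcon
  let E : IPow M (IPow M α) → IPow M (IPow M α) := fun D =>
    sep M fun P => ¬ S.sp0 P ∈ D ∨ ¬ S.sp1 P ∈ D
  have hE : IntF M E := by
    dsimp only [E]
    (repeat' (with_reducible (first | exact IntF.id | exact IntF.fst' | exact IntF.snd' | exact IntF.const _ | exact Int.const _ | assumption | apply intF_sp0 | apply intF_sp1 | apply intF_cl | apply int_cld | apply int_dj | apply int_mt | apply int_frc | apply Int.and | apply Int.or | apply Int.imp | apply Int.iff | apply Int.ne | apply Int.not | apply Int.all | apply Int.ex | apply Int.unique | apply Int.eq | apply Int.mem | apply Int.subset | apply Int.fin | apply Int.ltN | apply Int.leN | apply IntF.fst | apply IntF.snd | apply IntF.app | apply IntF.sep | apply IntF.lam | apply IntF.insert | apply IntF.singleton | apply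 IntF.union | apply IntF.inter | apply IntF.sdiff | apply IntF.isUnion | apply IntF.iimage | apply IntF.succ | apply IntF.ite | apply IntF.the | apply IntF.irec)))
  have mE : ∀ D P, P ∈ E D ↔ ¬ S.sp0 P ∈ D ∨ ¬ S.sp1 P ∈ D := fun D P => by
    dsimp only [E]
    rw [mem_sep (by (repeat' (with_reducible (first | exact IntF.id | exact IntF.fst' | exact IntF.snd' | exact IntF.const _ | exact Int.const _ | assumption | apply intF_sp0 | apply intF_sp1 | apply intF_cl | apply int_cld | apply int_dj | apply int_mt | apply int_frc | apply Int.and | apply Int.or | apply Int.imp | apply Int.iff | apply Int.ne | apply Int.not | apply Int.all | apply Int.ex | apply Int.unique | apply Int.eq | apply Int.mem | apply Int.subset | apply Int.fin | apply Int.ltN | apply Int.leN | apply IntF.fst | apply IntF.snd | apply IntF.app | apply IntF.sep | apply IntF.lam | apply IntF.insert | apply IntF.singleton | apply IntF.union | apply IntF.inter | apply IntF.sdiff | apply IntF.isUnion | apply IntF.iimage | apply IntF.succ | apply IntF.ite | apply IntF.the |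 apply IntF.irec))))]
  let G : IPow M (IPow M α) × IFun M (IPow M (IPow M α)) (IPow M α) → IPow M α := fun q =>
    if ∃ P, P ∈ q.1 then
      (if ∃ P, P ∈ E q.1 ∧ P ∈ q.1 then
        (if S.sp0 (q.2 (E q.1)) ∈ q.1 then S.sp1 (q.2 (E q.1)) else S.sp0 (q.2 (E q.1)))
      else S.lim q.1 q.2 ∅)
    else P₀
  have hG : IntF M G := by
    dsimp only [G]
    (repeat' (with_reducible (first | exact IntF.id | exact IntF.fst' | exact IntF.snd' | exact IntF.const _ | exact Int.const _ | assumption | apply intF_sp0 | apply intF_sp1 | apply intF_lim | apply IntF.comp hE | apply intF_cl | apply int_cld | apply int_dj | apply int_mt | apply int_frc | apply Int.and | apply Int.or | apply Int.imp | apply Int.iff | apply Int.ne | apply Int.not | apply Int.all | apply Int.ex | apply Int.unique | apply Int.eq | apply Int.mem | apply Int.subset | apply Int.fin | apply Int.ltN | apply Int.leN | apply IntF.fst | apply IntF.snd | apply IntF.app | apply IntF.sep | apply IntF.lam | apply IntF.insert | apply IntF.singleton | apply IntF.union | apply IntF.inter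 | apply IntF.sdiff | apply IntF.isUnion | apply IntF.iimage | apply IntF.succ | apply IntF.ite | apply IntF.the | apply IntF.irec)))
  have good : ∀ D c, (∀ P, P ∈ D → S.Perf P) → Ch D c → (∃ P, P ∈ D) →
      (¬ ∃ P, P ∈ E D ∧ P ∈ D) → S.Good D c := by
    intro D c h1 h2 h3 h4
    refine ⟨h1, h2, h3, fun P hP => ?_⟩
    by_contra h5
    exact h4 ⟨P, (mE D P).2 (not_and_or.1 h5), hP⟩
  obtain ⟨D, c, h1, h2, h3⟩ := zermelo (∅ : IPow M α) hG (Q := S.Perf) (S.int_perf IntF.id)
    (fun D c h1 h2 => by
      dsimp only [G]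
      split_ifs with h3 h4 h5
      · exact (h1 _ (h2 _ h4).2).sp1.1
      · exact (h1 _ (h2 _ h4).2).sp0.1
      · by_contra h5
        exact hcon ((good D c h1 h2 h3 h4).inj_of_not_perf h5)
      · exact h₀)
  dsimp only [G] at h3
  split_ifs at h3 with h4 h5 h6
  · exact ((mE D _).1 (h2 _ h5).1).elim (fun h7 => h7 h6) fun h7 => h7 h3
  · exact h6 h3
  · exact (good D c h1 h2 h4 h5).lim_not_mem _ h3
  · exact h4 ⟨_, h3⟩

end Sp

end Pool.Agent.H35Z.Cuf
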