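import Pool.Agent.Helper672.ZFA.Order
import Pool.Agent.Helper672.ZFA.Arith

/-!
# Compact Hausdorff spaces with a cuf base inside a model: basic topology
-/

set_option linter.unreachableTactic false
set_option linter.unusedTactic false
set_option linter.unusedVariables false
set_option linter.unusedSectionVars false

namespace Pool.Agent.H35Z.Cuf

open FirstOrder FirstOrder.Language Pool.Agent.Helper672.ZFA

universe u

variable {M : Type u} [L.Structure M] [hM : IsModel M]
variable {α : Type u} [ITy M α] {γ : Type u} [ITy M γ]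

/-- The closure with respect to a family of sets. -/
noncomputable def cl (τ : IPow M (IPow M α)) (s : IPow M α) : IPow M α :=
  sep M fun x => ∀ U, U ∈ τ → x ∈ U → ∃ z, z ∈ U ∧ z ∈ s

theorem mem_cl {τ : IPow M (IPow M α)} {s : IPow M α} {x : α} :
    x ∈ cl τ s ↔ ∀ U, U ∈ τ → x ∈ U → ∃ z, z ∈ U ∧ z ∈ s := by
  unfold cl
  rw [mem_sep (by (repeat' (with_reducible (first | exact IntF.id | exact IntF.fst' | exact IntF.snd' | exact IntF.const _ | exact Int.const _ | assumption | apply Int.and | apply Int.or | apply Int.imp | apply Int.iff | apply Int.ne | apply Int.not | apply Int.all | apply Int.ex | apply Int.unique | apply Int.eq | apply Int.mem | apply Int.subset | apply Int.fin | apply Int.ltN | apply Int.leN | apply IntF.fst | apply IntF.snd | apply IntF.app | apply IntF.sep | apply IntF.lam | apply IntF.insert | apply IntF.singleton | apply IntF.union | apply IntF.inter | apply IntF.sdiff | apply IntF.isUnion | apply IntF.iimage | apply IntF.succ | apply IntF.ite | apply IntF.the | apply IntF.irec))))]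

theorem intF_cl {τ : IPow M (IPow M α)} {s : γ → IPow M α} (hs : IntF M s) :
    IntF M (fun c => cl τ (s c)) := by
  unfold cl
  (repeat' (with_reducible (first | exact IntF.id | exact IntF.fst' | exact IntF.snd' | exact IntF.const _ | exact Int.const _ | assumption | apply IntF.comp hs | apply Int.and | apply Int.or | apply Int.imp | apply Int.iff | apply Int.ne | apply Int.not | apply Int.all | apply Int.ex | apply Int.unique | apply Int.eq | apply Int.mem | apply Int.subset | apply Int.fin | apply Int.ltN | apply Int.leN | apply IntF.fst | apply IntF.snd | apply IntF.app | apply IntF.sep | apply IntF.lam | apply IntF.insert | apply IntF.singleton | apply IntF.union | apply IntF.inter | apply IntF.sdiff | apply IntF.isUnion | apply IntF.iimage | apply IntF.succ | apply IntF.ite | apply IntF.the | apply IntF.irec)))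

/-- Closed sets. -/
def Cld (τ : IPow M (IPow M α)) (C : IPow M α) : Prop := cl τ C ⊆ C

theorem int_cld {τ : IPow M (IPow M α)} {s : γ → IPow M α} (hs : IntF M s) :
    Int M (fun c => Cld τ (s c)) := by
  unfold Cld
  (repeat' (with_reducible (first | exact IntF.id | exact IntF.fst' | exact IntF.snd' | exact IntF.const _ | exact Int.const _ | assumption | apply intF_cl | apply Int.and | apply Int.or | apply Int.imp | apply Int.iff | apply Int.ne | apply Int.not | apply Int.all | apply Int.ex | apply Int.unique | apply Int.eq | apply Int.mem | apply Int.subset | apply Int.fin | apply Int.ltN | apply Int.leN | apply IntF.fst | apply IntF.snd | apply IntF.app | apply IntF.sep | apply IntF.lam | apply IntF.insert | apply IntF.singleton | apply IntF.union | apply IntF.inter | apply IntF.sdiff | apply IntF.isUnion | apply IntF.iimage | apply IntF.succ | apply IntF.ite | apply IntF.the | apply IntF.irec)))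

/-- Disjoint sets. -/
def Dj (s t : IPow M α) : Prop := ∀ x, x ∈ s → ¬ x ∈ t

theorem int_dj {s t : γ → IPow M α} (hs : IntF M s) (ht : IntF M t) :
    Int M (fun c => Dj (s c) (t c)) := by
  unfold Dj
  (repeat' (with_reducible (first | exact IntF.id | exact IntF.fst' | exact IntF.snd' | exact IntF.const _ | exact Int.const _ | assumption | apply IntF.comp hs | apply IntF.comp ht | apply Int.and | apply Int.or | apply Int.imp | apply Int.iff | apply Int.ne | apply Int.not | apply Int.all | apply Int.ex | apply Int.unique | apply Int.eq | apply Int.mem | apply Int.subset | apply Int.fin | apply Int.ltN | apply Int.leN | apply IntF.fst | apply IntF.snd | apply IntF.app | apply IntF.sep | apply IntF.lam | apply IntF.insert | apply IntF.singleton | apply IntF.union | apply IntF.inter | apply IntF.sdiff | apply IntF.isUnion | apply IntF.iimage | apply IntF.succ | apply IntF.ite | apply IntF.the | apply IntF.irec)))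

/-- Sets that meet. -/
def Mt (s t : IPow M α) : Prop := ∃ x, x ∈ s ∧ x ∈ t

theorem int_mt {s t : γ → IPow M α} (hs : IntF M s) (ht : IntF M t) :
    Int M (fun c => Mt (s c) (t c)) := by
  unfold Mt
  (repeat' (with_reducible (first | exact IntF.id | exact IntF.fst' | exact IntF.snd' | exact IntF.const _ | exact Int.const _ | assumption | apply IntF.comp hs | apply IntF.comp ht | apply Int.and | apply Int.or | apply Int.imp | apply Int.iff | apply Int.ne | apply Int.not | apply Int.all | apply Int.ex | apply Int.unique | apply Int.eq | apply Int.mem | apply Int.subset | apply Int.fin | apply Int.ltN | apply Int.leN | apply IntF.fst | apply IntF.snd | apply IntF.app | apply IntF.sep | apply IntF.lam | apply IntF.insert | apply IntF.singleton | apply IntF.union | apply IntF.inter | apply IntF.sdiff | apply IntF.isUnion | apply IntF.iimage | apply IntF.succ | apply IntF.ite | apply IntF.the | apply IntF.irec)))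

omit hM in
theorem not_mt {s t : IPow M α} : ¬ Mt s t ↔ Dj s t := by
  unfold Mt Dj
  push Not
  rfl


variable (M α) in
/-- The data: a compact Hausdorff space with a cuf base and a multiple choice function. -/
structure Sp where
  τ : IPow M (IPow M α)
  B : IFun M (INat M) (IPow M (IPow M α))
  f : IFun M (IPow M α) (IPow M α)
  univ : iuniv M α ∈ τ
  inter : ∀ U V, U ∈ τ → V ∈ τ → U ∩ V ∈ τ
  union : ∀ F : IPow M (IPow M α), (∀ U, U ∈ F → U ∈ τ) → isUnion F ∈ τ
  haus : ∀ x y, x ≠ y → ∃ U V, U ∈ τ ∧ V ∈ τ ∧ x ∈ U ∧ y ∈ V ∧ Dj U V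
  cpt : ∀ F : IPow M (IPow M α), (∀ U, U ∈ F → U ∈ τ) → (∀ x, ∃ U, U ∈ F ∧ x ∈ U) →
    ∃ G, G ⊆ F ∧ IFin G ∧ ∀ x, ∃ U, U ∈ G ∧ x ∈ U
  Bfin : ∀ n, IFin (B n)
  Bopen : ∀ n U, U ∈ B n → U ∈ τ
  Bbase : ∀ U x, U ∈ τ → x ∈ U → ∃ n V, V ∈ B n ∧ x ∈ V ∧ V ⊆ U
  fspec : ∀ C, Cld τ C → (∃ x, x ∈ C) → IFin (f C) ∧ (∃ x, x ∈ f C) ∧ f C ⊆ C

section basic

variable {τ : IPow M (IPow M α)}

theorem subset_cl (s : IPow M α) : s ⊆ cl τ s := fun x hx =>
  mem_cl.2 fun _ _ h => ⟨x, h, hx⟩

theorem cl_mono {s t : IPow M α} (h : s ⊆ t) : cl τ s ⊆ cl τ t := fun x hx =>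
  mem_cl.2 fun U hU hxU => by
    obtain ⟨z, h1, h2⟩ := mem_cl.1 hx U hU hxU
    exact ⟨z, h1, h z h2⟩

theorem cld_cl (s : IPow M α) : Cld τ (cl τ s) := fun x hx =>
  mem_cl.2 fun U hU hxU => by
    obtain ⟨z, h1, h2⟩ := mem_cl.1 hx U hU hxU
    exact mem_cl.1 h2 U hU h1

theorem cl_min {s C : IPow M α} (h : s ⊆ C) (hC : Cld τ C) : cl τ s ⊆ C := fun x hx =>
  hC x (cl_mono h x hx)

theorem cld_iff {C : IPow M α} : Cld τ C ↔ ∀ x, ¬ x ∈ C → ∃ U, U ∈ τ ∧ x ∈ U ∧ Dj U C := by
  constructor
  · intro h x hx
    by_contra h1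
    refine hx (h x (mem_cl.2 fun U hU hxU => ?_))
    by_contra h2
    exact h1 ⟨U, hU, hxU, fun z hz hz' => h2 ⟨z, hz, hz'⟩⟩
  · intro h x hx
    by_contra h1
    obtain ⟨U, hU, hxU, h2⟩ := h x h1
    obtain ⟨z, h3, h4⟩ := mem_cl.1 hx U hU hxU
    exact h2 z h3 h4

theorem cld_compl {U : IPow M α} (hU : U ∈ τ) : Cld τ (iuniv M α \ U) :=
  cld_iff.2 fun x hx => ⟨U, hU, by simpa using hx, fun z hz => by simp [hz]⟩

theorem cld_inter {C D : IPow M α} (hC : Cld τ C) (hD : Cld τ D) : Cld τ (C ∩ D) := fun x hx =>
  mem_inter.2 ⟨hC x (cl_mono (fun z hz => (mem_inter.1 hz).1) x hx),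
    hD x (cl_mono (fun z hz => (mem_inter.1 hz).2) x hx)⟩

end basic

namespace Sp

variable (S : Sp M α)

theorem open_compl {C : IPow M α} (hC : Cld S.τ C) : iuniv M α \ C ∈ S.τ := by
  have hi : Int M (fun U : IPow M α => U ∈ S.τ ∧ Dj U C) := by (repeat' (with_reducible (first | exact IntF.id | exact IntF.fst' | exact IntF.snd' | exact IntF.const _ | exact Int.const _ | assumption | apply intF_cl | apply int_cld | apply int_dj | apply int_mt | apply Int.and | apply Int.or | apply Int.imp | apply Int.iff | apply Int.ne | apply Int.not | apply Int.all | apply Int.ex | apply Int.unique | apply Int.eq | apply Int.mem | apply Int.subset | apply Int.fin | apply Int.ltN | apply Int.leN | apply IntF.fst | apply IntF.snd | apply IntF.app | apply IntF.sep | apply IntF.lam | apply IntF.insert | apply IntF.singleton | apply IntF.union | apply IntF.inter | apply IntF.sdiff | apply IntF.isUnion | apply IntF.iimage | apply IntF.succ | apply IntF.ite | apply IntF.the | apply IntF.irec)))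
  have h := S.union (sep M fun U => U ∈ S.τ ∧ Dj U C) fun U hU => ((mem_sep hi).1 hU).1
  have h1 : isUnion (sep M fun U => U ∈ S.τ ∧ Dj U C) = iuniv M α \ C := by
    refine IPow.ext' fun x => ?_
    rw [mem_isUnion, mem_sdiff]
    constructor
    · rintro ⟨U, hU, hx⟩
      exact ⟨by simp, ((mem_sep hi).1 hU).2 x hx⟩
    · rintro ⟨-, hx⟩
      obtain ⟨U, hU, hxU, h2⟩ := cld_iff.1 hC x hx
      exact ⟨U, (mem_sep hi).2 ⟨hU, h2⟩, hxU⟩
  rwa [h1] at h

theorem cld_empty : Cld S.τ (∅ : IPow M α) :=
  cld_iff.2 fun _ _ => ⟨iuniv M α, S.univ, by simp, fun z _ => by simp⟩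

theorem cld_univ : Cld S.τ (iuniv M α) := fun x _ => by simp

theorem cld_union {C D : IPow M α} (hC : Cld S.τ C) (hD : Cld S.τ D) : Cld S.τ (C ∪ D) := by
  refine cld_iff.2 fun x hx => ?_
  rw [mem_union, not_or] at hx
  obtain ⟨U, hU, hxU, h1⟩ := cld_iff.1 hC x hx.1
  obtain ⟨V, hV, hxV, h2⟩ := cld_iff.1 hD x hx.2
  refine ⟨U ∩ V, S.inter U V hU hV, mem_inter.2 ⟨hxU, hxV⟩, fun z hz hz' => ?_⟩
  rw [mem_inter] at hz
  rcases mem_union.1 hz' with h | h
  · exact h1 z hz.1 h
  · exact h2 z hz.2 h

theorem cld_isUnion {F : IPow M (IPow M α)} (hF : IFin F) (h : ∀ C, C ∈ F → Cld S.τ C) :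
    Cld S.τ (isUnion F) := by
  revert h
  refine IFin.ind (p := fun F => (∀ C, C ∈ F → Cld S.τ C) → Cld S.τ (isUnion F))
    (by (repeat' (with_reducible (first | exact IntF.id | exact IntF.fst' | exact IntF.snd' | exact IntF.const _ | exact Int.const _ | assumption | apply intF_cl | apply int_cld | apply int_dj | apply int_mt | apply Int.and | apply Int.or | apply Int.imp | apply Int.iff | apply Int.ne | apply Int.not | apply Int.all | apply Int.ex | apply Int.unique | apply Int.eq | apply Int.mem | apply Int.subset | apply Int.fin | apply Int.ltN | apply Int.leN | apply IntF.fst | apply IntF.snd | apply IntF.app | apply IntF.sep | apply IntF.lam | apply IntF.insert | apply IntF.singleton | apply IntF.union | apply IntF.inter | apply IntF.sdiff | apply IntF.isUnion | apply IntF.iimage | apply IntF.succ | apply IntF.ite | apply IntF.the | apply IntF.irec)))) ?_ ?_ F hF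
  · intro _
    have : isUnion (∅ : IPow M (IPow M α)) = ∅ := IPow.ext' fun x => by simp
    rw [this]
    exact S.cld_empty
  · intro F C _ _ ih h
    have : isUnion (insert C F) = C ∪ isUnion F := IPow.ext' fun x => by simp
    rw [this]
    exact S.cld_union (h C (by simp)) (ih fun D hD => h D (mem_insert.2 (Or.inr hD)))

theorem cld_singleton (a : α) : Cld S.τ ({a} : IPow M α) := by
  refine cld_iff.2 fun x hx => ?_
  rw [mem_singleton] at hx
  obtain ⟨U, V, hU, _, hx, ha, h⟩ := S.haus x a hx
  refine ⟨U, hU, hx, fun z hz hz' => ?_⟩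
  rw [mem_singleton] at hz'
  subst hz'
  exact h z hz ha

theorem cld_fin {A : IPow M α} (hA : IFin A) : Cld S.τ A := by
  refine IFin.ind (p := fun A => Cld S.τ A) (by (repeat' (with_reducible (first | exact IntF.id | exact IntF.fst' | exact IntF.snd' | exact IntF.const _ | exact Int.const _ | assumption | apply intF_cl | apply int_cld | apply int_dj | apply int_mt | apply Int.and | apply Int.or | apply Int.imp | apply Int.iff | apply Int.ne | apply Int.not | apply Int.all | apply Int.ex | apply Int.unique | apply Int.eq | apply Int.mem | apply Int.subset | apply Int.fin | apply Int.ltN | apply Int.leN | apply IntF.fst | apply IntF.snd | apply IntF.app | apply IntF.sep | apply IntF.lam | apply IntF.insert | apply IntF.singleton | apply IntF.union | apply IntF.inter | apply IntF.sdiff | apply IntF.isUnion | apply IntF.iimage | apply IntF.succ | apply IntF.ite | apply IntF.the | apply IntF.irec)))) S.cld_empty ?_ A hA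
  intro A a _ _ ih
  have : (insert a A : IPow M α) = {a} ∪ A := IPow.ext' fun x => by simp
  rw [this]
  exact S.cld_union (S.cld_singleton a) ih

/-- Decreasing sequences of nonempty closed sets have a common point. -/
theorem inter_nonempty {C : INat M → IPow M α} (hC : IntF M C) (h1 : ∀ n, Cld S.τ (C n))
    (h2 : ∀ n, ∃ x, x ∈ C n) (h3 : ∀ m n, m ≤ n → C n ⊆ C m) : ∃ x, ∀ n, x ∈ C n := by
  by_contra h
  push Not at h
  have hi : Int M (fun U : IPow M α => ∃ n, U = iuniv M α \ C n) := by (repeat' (with_reducible (first | exact IntF.id | exact IntF.fst' | exact IntF.snd' | exact IntF.const _ | exact Int.const _ | assumption | apply IntF.comp hC | apply intF_cl | apply int_cld | apply int_dj | apply int_mt | apply Int.and | apply Int.or | apply Int.imp | apply Int.iff | apply Int.ne | apply Int.not | apply Int.all | apply Int.ex | apply Int.unique | apply Int.eq | apply Int.mem | apply Int.subset | apply Int.fin | apply Int.ltN | apply Int.leN | apply IntF.fst | apply IntF.snd | apply IntF.app | apply IntF.sep | apply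 IntF.lam | apply IntF.insert | apply IntF.singleton | apply IntF.union | apply IntF.inter | apply IntF.sdiff | apply IntF.isUnion | apply IntF.iimage | apply IntF.succ | apply IntF.ite | apply IntF.the | apply IntF.irec)))
  obtain ⟨G, hG, hGf, hc⟩ := S.cpt (sep M fun U => ∃ n, U = iuniv M α \ C n) (fun U hU => by
    obtain ⟨n, rfl⟩ := (mem_sep hi).1 hU
    exact S.open_compl (h1 n)) (fun x => by
    obtain ⟨n, hn⟩ := h x
    exact ⟨_, (mem_sep hi).2 ⟨n, rfl⟩, by simpa using hn⟩)
  obtain ⟨N, hN⟩ := IFin.exists_bound (r := fun (U : IPow M α) (n : INat M) => Dj U (C n))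
    (by (repeat' (with_reducible (first | exact IntF.id | exact IntF.fst' | exact IntF.snd' | exact IntF.const _ | exact Int.const _ | assumption | apply IntF.comp hC | apply intF_cl | apply int_cld | apply int_dj | apply int_mt | apply Int.and | apply Int.or | apply Int.imp | apply Int.iff | apply Int.ne | apply Int.not | apply Int.all | apply Int.ex | apply Int.unique | apply Int.eq | apply Int.mem | apply Int.subset | apply Int.fin | apply Int.ltN | apply Int.leN | apply IntF.fst | apply IntF.snd | apply IntF.app | apply IntF.sep | apply IntF.lam | apply IntF.insert | apply IntF.singleton | apply IntF.union | apply IntF.inter | apply IntF.sdiff | apply IntF.isUnion | apply IntF.iimage | apply IntF.succ | apply IntF.ite | apply IntF.the | apply IntF.irec)))) (fun b c => ⟨max b c, fun U hU => by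
      rcases hU with hU | hU
      · exact fun z hz hz' => hU z hz (h3 _ _ (le_max_left _ _) z hz')
      · exact fun z hz hz' => hU z hz (h3 _ _ (le_max_right _ _) z hz')⟩) ⟨0⟩ hGf (fun U hU => by
      obtain ⟨n, rfl⟩ := (mem_sep hi).1 (hG U hU)
      exact ⟨n, fun z hz => by simpa using hz⟩)
  obtain ⟨x, hx⟩ := h2 N
  obtain ⟨U, hU, hxU⟩ := hc x
  exact hN U hU x hxU hx

/-- Regularity. -/
theorem regular {C : IPow M α} (hC : Cld S.τ C) {x : α} (hx : ¬ x ∈ C) :
    ∃ U, U ∈ S.τ ∧ x ∈ U ∧ Dj (cl S.τ U) C := by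
  have hi : Int M (fun V : IPow M α => V ∈ S.τ ∧ (¬ x ∈ cl S.τ V ∨ Dj V C)) := by (repeat' (with_reducible (first | exact IntF.id | exact IntF.fst' | exact IntF.snd' | exact IntF.const _ | exact Int.const _ | assumption | apply intF_cl | apply int_cld | apply int_dj | apply int_mt | apply Int.and | apply Int.or | apply Int.imp | apply Int.iff | apply Int.ne | apply Int.not | apply Int.all | apply Int.ex | apply Int.unique | apply Int.eq | apply Int.mem | apply Int.subset | apply Int.fin | apply Int.ltN | apply Int.leN | apply IntF.fst | apply IntF.snd | apply IntF.app | apply IntF.sep | apply IntF.lam | apply IntF.insert | apply IntF.singleton | apply IntF.union | apply IntF.inter | apply IntF.sdiff | apply IntF.isUnion | apply IntF.iimage | apply IntF.succ | apply IntF.ite | apply IntF.the | apply IntF.irec)))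
  obtain ⟨G, hG, hGf, hc⟩ := S.cpt (sep M fun V => V ∈ S.τ ∧ (¬ x ∈ cl S.τ V ∨ Dj V C))
    (fun U hU => ((mem_sep hi).1 hU).1) (fun y => by
    by_cases hy : y ∈ C
    · have hxy : x ≠ y := fun h => hx (h ▸ hy)
      obtain ⟨U, V, hU, hV, hxU, hyV, h⟩ := S.haus x y hxy
      refine ⟨V, (mem_sep hi).2 ⟨hV, Or.inl fun h1 => ?_⟩, hyV⟩
      obtain ⟨z, h2, h3⟩ := mem_cl.1 h1 U hU hxU
      exact h z h2 h3
    · exact ⟨iuniv M α \ C, (mem_sep hi).2 ⟨S.open_compl hC, Or.inr fun z hz => by
        simpa using hz⟩, by simpa using hy⟩)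
  have hj : Int M (fun V : IPow M α => V ∈ G ∧ ¬ x ∈ cl S.τ V) := by (repeat' (with_reducible (first | exact IntF.id | exact IntF.fst' | exact IntF.snd' | exact IntF.const _ | exact Int.const _ | assumption | apply intF_cl | apply int_cld | apply int_dj | apply int_mt | apply Int.and | apply Int.or | apply Int.imp | apply Int.iff | apply Int.ne | apply Int.not | apply Int.all | apply Int.ex | apply Int.unique | apply Int.eq | apply Int.mem | apply Int.subset | apply Int.fin | apply Int.ltN | apply Int.leN | apply IntF.fst | apply IntF.snd | apply IntF.app | apply IntF.sep | apply IntF.lam | apply IntF.insert | apply IntF.singleton | apply IntF.union | apply IntF.inter | apply IntF.sdiff | apply IntF.isUnion | apply IntF.iimage | apply IntF.succ | apply IntF.ite | apply IntF.the | apply IntF.irec)))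
  have hcl : IntF M (fun V : IPow M α => cl S.τ V) := by (repeat' (with_reducible (first | exact IntF.id | exact IntF.fst' | exact IntF.snd' | exact IntF.const _ | exact Int.const _ | assumption | apply intF_cl | apply int_cld | apply int_dj | apply int_mt | apply Int.and | apply Int.or | apply Int.imp | apply Int.iff | apply Int.ne | apply Int.not | apply Int.all | apply Int.ex | apply Int.unique | apply Int.eq | apply Int.mem | apply Int.subset | apply Int.fin | apply Int.ltN | apply Int.leN | apply IntF.fst | apply IntF.snd | apply IntF.app | apply IntF.sep | apply IntF.lam | apply IntF.insert | apply IntF.singleton | apply IntF.union | apply IntF.inter | apply IntF.sdiff | apply IntF.isUnion | apply IntF.iimage | apply IntF.succ | apply IntF.ite | apply IntF.the | apply IntF.irec)))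
  have hfin : IFin (iimage (fun V => cl S.τ V) (sep M fun V => V ∈ G ∧ ¬ x ∈ cl S.τ V)) :=
    (hGf.subset fun V hV => ((mem_sep hj).1 hV).1).image hcl
  have hD := S.cld_isUnion hfin fun D hD => by
    obtain ⟨V, _, rfl⟩ := (mem_iimage hcl).1 hD
    exact cld_cl V
  refine ⟨_, S.open_compl hD, ?_, fun z hz hzC => ?_⟩
  · rw [mem_sdiff, mem_isUnion]
    refine ⟨by simp, ?_⟩
    rintro ⟨D, hD, hxD⟩
    obtain ⟨V, hV, rfl⟩ := (mem_iimage hcl).1 hD
    exact ((mem_sep hj).1 hV).2 hxD
  · obtain ⟨V, hV, hzV⟩ := hc z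
    obtain ⟨hVo, h1⟩ := (mem_sep hi).1 (hG V hV)
    have h2 : ¬ x ∈ cl S.τ V := h1.resolve_right fun h => h z hzV hzC
    obtain ⟨w, h3, h4⟩ := mem_cl.1 hz V hVo hzV
    rw [mem_sdiff, mem_isUnion] at h4
    exact h4.2 ⟨cl S.τ V, (mem_iimage hcl).2 ⟨V, (mem_sep hj).2 ⟨hV, h2⟩, rfl⟩,
      subset_cl V w h3⟩

theorem regular_base {C : IPow M α} (hC : Cld S.τ C) {x : α} (hx : ¬ x ∈ C) :
    ∃ n V, V ∈ S.B n ∧ x ∈ V ∧ Dj (cl S.τ V) C := by
  obtain ⟨U, hU, hxU, h⟩ := S.regular hC hx
  obtain ⟨n, V, hV, hxV, h1⟩ := S.Bbase U x hU hxU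
  exact ⟨n, V, hV, hxV, fun z hz => h z (cl_mono h1 z hz)⟩

theorem regular_base' {O : IPow M α} (hO : O ∈ S.τ) {x : α} (hx : x ∈ O) :
    ∃ n V, V ∈ S.B n ∧ x ∈ V ∧ cl S.τ V ⊆ O := by
  obtain ⟨n, V, hV, hxV, h⟩ := S.regular_base (cld_compl hO) (x := x) (by simpa using hx)
  refine ⟨n, V, hV, hxV, fun z hz => ?_⟩
  simpa using h z hz

/-- Nonempty perfect sets. -/
def Perf (P : IPow M α) : Prop :=
  Cld S.τ P ∧ (∃ x, x ∈ P) ∧ ∀ x U, x ∈ P → U ∈ S.τ → x ∈ U → ∃ y, y ∈ P ∧ y ∈ U ∧ y ≠ x

theorem int_perf {s : γ → IPow M α} (hs : IntF M s) : Int M (fun c => S.Perf (s c)) := by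
  unfold Perf
  (repeat' (with_reducible (first | exact IntF.id | exact IntF.fst' | exact IntF.snd' | exact IntF.const _ | exact Int.const _ | assumption | apply IntF.comp hs | apply intF_cl | apply int_cld | apply int_dj | apply int_mt | apply Int.and | apply Int.or | apply Int.imp | apply Int.iff | apply Int.ne | apply Int.not | apply Int.all | apply Int.ex | apply Int.unique | apply Int.eq | apply Int.mem | apply Int.subset | apply Int.fin | apply Int.ltN | apply Int.leN | apply IntF.fst | apply IntF.snd | apply IntF.app | apply IntF.sep | apply IntF.lam | apply IntF.insert | apply IntF.singleton | apply IntF.union | apply IntF.inter | apply IntF.sdiff | apply IntF.isUnion | apply IntF.iimage | apply IntF.succ | apply IntF.ite | apply IntF.the | apply IntF.irec)))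

theorem perf_cl {s : IPow M α} (h1 : ∃ x, x ∈ s)
    (h2 : ∀ x U, x ∈ s → U ∈ S.τ → x ∈ U → ∃ y, y ∈ s ∧ y ∈ U ∧ y ≠ x) : S.Perf (cl S.τ s) := by
  refine ⟨cld_cl s, h1.imp fun x hx => subset_cl s x hx, fun x U hx hU hxU => ?_⟩
  obtain ⟨z, hzU, hz⟩ := mem_cl.1 hx U hU hxU
  by_cases h : z = x
  · subst h
    obtain ⟨y, h3, h4, h5⟩ := h2 z U hz hU hzU
    exact ⟨y, subset_cl s y h3, h4, h5⟩
  · exact ⟨z, subset_cl s z hz, hzU, h⟩

variable {S}

theorem Perf.piece {P W : IPow M α} (hP : S.Perf P) (hW : W ∈ S.τ) (h : Mt P W) :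
    S.Perf (cl S.τ (P ∩ W)) := by
  refine S.perf_cl (h.imp fun x hx => mem_inter.2 hx) fun x U hx hU hxU => ?_
  rw [mem_inter] at hx
  obtain ⟨y, h1, h2, h3⟩ := hP.2.2 x (U ∩ W) hx.1 (S.inter U W hU hW) (mem_inter.2 ⟨hxU, hx.2⟩)
  rw [mem_inter] at h2
  exact ⟨y, mem_inter.2 ⟨h1, h2.2⟩, h2.1, h3⟩

theorem Perf.not_fin {P A : IPow M α} (hP : S.Perf P) (hA : IFin A) : ∃ x, x ∈ P ∧ ¬ x ∈ A := by
  have h : ∀ U, U ∈ S.τ → Mt P U → ∃ x, x ∈ P ∧ x ∈ U ∧ ¬ x ∈ A := by
    refine IFin.ind (p := fun A => ∀ U, U ∈ S.τ → Mt P U → ∃ x, x ∈ P ∧ x ∈ U ∧ ¬ x ∈ A)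
      (by (repeat' (with_reducible (first | exact IntF.id | exact IntF.fst' | exact IntF.snd' | exact IntF.const _ | exact Int.const _ | assumption | apply intF_cl | apply int_cld | apply int_dj | apply int_mt | apply Int.and | apply Int.or | apply Int.imp | apply Int.iff | apply Int.ne | apply Int.not | apply Int.all | apply Int.ex | apply Int.unique | apply Int.eq | apply Int.mem | apply Int.subset | apply Int.fin | apply Int.ltN | apply Int.leN | apply IntF.fst | apply IntF.snd | apply IntF.app | apply IntF.sep | apply IntF.lam | apply IntF.insert | apply IntF.singleton | apply IntF.union | apply IntF.inter | apply IntF.sdiff | apply IntF.isUnion | apply IntF.iimage | apply IntF.succ | apply IntF.ite | apply IntF.the | apply IntF.irec)))) ?_ ?_ A hA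
    · rintro U _ ⟨x, h1, h2⟩
      exact ⟨x, h1, h2, by simp⟩
    · rintro A a _ _ ih U hU ⟨x, h1, h2⟩
      have h3 : Mt P (U ∩ (iuniv M α \ {a})) := by
        by_cases hx : x = a
        · obtain ⟨y, h4, h5, h6⟩ := hP.2.2 x U h1 hU h2
          exact ⟨y, h4, by simp [h5, ← hx, h6]⟩
        · exact ⟨x, h1, by simp [h2, hx]⟩
      obtain ⟨y, h4, h5, h6⟩ := ih _ (S.inter _ _ hU (S.open_compl (S.cld_singleton a))) h3
      simp only [mem_inter, mem_sdiff, mem_iuniv, mem_singleton, true_and] at h5
      exact ⟨y, h4, h5.1, by simp [h5.2, h6]⟩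
  obtain ⟨x, hx⟩ := hP.2.1
  obtain ⟨y, h1, -, h2⟩ := h (iuniv M α) S.univ ⟨x, hx, by simp⟩
  exact ⟨y, h1, h2⟩

variable (S)

/-- The first level of the base with a set that meets `P` and has closure disjoint from `C`. -/
noncomputable def lev (P C : IPow M α) : INat M :=
  the (fun n => (∃ U, U ∈ S.B n ∧ Mt P U ∧ Dj (cl S.τ U) C) ∧
    ∀ m, (∃ U, U ∈ S.B m ∧ Mt P U ∧ Dj (cl S.τ U) C) → n ≤ m) 0

theorem intF_lev {s t : γ → IPow M α} (hs : IntF M s) (ht : IntF M t) :
    IntF M (fun c => S.lev (s c) (t c)) := by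
  unfold lev
  (repeat' (with_reducible (first | exact IntF.id | exact IntF.fst' | exact IntF.snd' | exact IntF.const _ | exact Int.const _ | assumption | apply IntF.comp hs | apply IntF.comp ht | apply intF_cl | apply int_cld | apply int_dj | apply int_mt | apply Int.and | apply Int.or | apply Int.imp | apply Int.iff | apply Int.ne | apply Int.not | apply Int.all | apply Int.ex | apply Int.unique | apply Int.eq | apply Int.mem | apply Int.subset | apply Int.fin | apply Int.ltN | apply Int.leN | apply IntF.fst | apply IntF.snd | apply IntF.app | apply IntF.sep | apply IntF.lam | apply IntF.insert | apply IntF.singleton | apply IntF.union | apply IntF.inter | apply IntF.sdiff | apply IntF.isUnion | apply IntF.iimage | apply IntF.succ | apply IntF.ite | apply IntF.the | apply IntF.irec)))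

theorem lev_spec {P C : IPow M α} (h : ∃ n U, U ∈ S.B n ∧ Mt P U ∧ Dj (cl S.τ U) C) :
    ∃ U, U ∈ S.B (S.lev P C) ∧ Mt P U ∧ Dj (cl S.τ U) C := by
  obtain ⟨n, h1, h2⟩ := INat.exists_least
    (p := fun n => ∃ U, U ∈ S.B n ∧ Mt P U ∧ Dj (cl S.τ U) C) (by (repeat' (with_reducible (first | exact IntF.id | exact IntF.fst' | exact IntF.snd' | exact IntF.const _ | exact Int.const _ | assumption | apply intF_cl | apply int_cld | apply int_dj | apply int_mt | apply Int.and | apply Int.or | apply Int.imp | apply Int.iff | apply Int.ne | apply Int.not | apply Int.all | apply Int.ex | apply Int.unique | apply Int.eq | apply Int.mem | apply Int.subset | apply Int.fin | apply Int.ltN | apply Int.leN | apply IntF.fst | apply IntF.snd | apply IntF.app | apply IntF.sep | apply IntF.lam | apply IntF.insert | apply IntF.singleton | apply IntF.union | apply IntF.inter | apply IntF.sdiff | apply IntF.isUnion | apply IntF.iimage | apply IntF.succ | apply IntF.ite | apply IntF.the | apply IntF.irec)))) h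
  have h3 : ∃! n, (∃ U, U ∈ S.B n ∧ Mt P U ∧ Dj (cl S.τ U) C) ∧
      ∀ m, (∃ U, U ∈ S.B m ∧ Mt P U ∧ Dj (cl S.τ U) C) → n ≤ m :=
    ⟨n, ⟨h1, h2⟩, fun m hm => le_antisymm (hm.2 n h1) (h2 m hm.1)⟩
  exact (the_spec h3).1

/-- A perfect piece of `P` that avoids `C`. -/
noncomputable def avoid (P C : IPow M α) : IPow M α :=
  cl S.τ (P ∩ isUnion (sep M fun U => U ∈ S.B (S.lev P C) ∧ Dj (cl S.τ U) C))

theorem intF_avoid {s t : γ → IPow M α} (hs : IntF M s) (ht : IntF M t) :
    IntF M (fun c => S.avoid (s c) (t c)) := by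
  unfold avoid
  (repeat' (with_reducible (first | exact IntF.id | exact IntF.fst' | exact IntF.snd' | exact IntF.const _ | exact Int.const _ | assumption | apply IntF.comp hs | apply IntF.comp ht | apply intF_lev | apply intF_cl | apply int_cld | apply int_dj | apply int_mt | apply Int.and | apply Int.or | apply Int.imp | apply Int.iff | apply Int.ne | apply Int.not | apply Int.all | apply Int.ex | apply Int.unique | apply Int.eq | apply Int.mem | apply Int.subset | apply Int.fin | apply Int.ltN | apply Int.leN | apply IntF.fst | apply IntF.snd | apply IntF.app | apply IntF.sep | apply IntF.lam | apply IntF.insert | apply IntF.singleton | apply IntF.union | apply IntF.inter | apply IntF.sdiff | apply IntF.isUnion | apply IntF.iimage | apply IntF.succ | apply IntF.ite | apply IntF.the | apply IntF.irec)))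

variable {S}

theorem Perf.avoid {P C : IPow M α} (hP : S.Perf P) (hC : Cld S.τ C) (h : ∃ x, x ∈ P ∧ ¬ x ∈ C) :
    S.Perf (S.avoid P C) ∧ S.avoid P C ⊆ P ∧ Dj (S.avoid P C) C := by
  obtain ⟨x, hxP, hxC⟩ := h
  obtain ⟨n, V, hV, hxV, h1⟩ := S.regular_base hC hxC
  obtain ⟨U, hU, ⟨y, hyP, hyU⟩, h2⟩ := S.lev_spec ⟨n, V, hV, ⟨x, hxP, hxV⟩, h1⟩
  have hi : Int M (fun U : IPow M α => U ∈ S.B (S.lev P C) ∧ Dj (cl S.τ U) C) := by (repeat' (with_reducible (first | exact IntF.id | exact IntF.fst' | exact IntF.snd' | exact IntF.const _ | exact Int.const _ | assumption | apply intF_cl | apply int_cld | apply int_dj | apply int_mt | apply Int.and | apply Int.or | apply Int.imp | apply Int.iff | apply Int.ne | apply Int.not | apply Int.all | apply Int.ex | apply Int.unique | apply Int.eq | apply Int.mem | apply Int.subset | apply Int.fin | apply Int.ltN | apply Int.leN | apply IntF.fst | apply IntF.snd | apply IntF.app | apply IntF.sep | apply IntF.lam | apply IntF.insert | apply IntF.singleton | apply IntF.union | apply IntF.inter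 | apply IntF.sdiff | apply IntF.isUnion | apply IntF.iimage | apply IntF.succ | apply IntF.ite | apply IntF.the | apply IntF.irec)))
  refine ⟨hP.piece (S.union _ fun W hW => S.Bopen _ _ ((mem_sep hi).1 hW).1)
    ⟨y, hyP, mem_isUnion.2 ⟨U, (mem_sep hi).2 ⟨hU, h2⟩, hyU⟩⟩,
    cl_min (fun z hz => (mem_inter.1 hz).1) hP.1, ?_⟩
  have hcl : IntF M (fun V : IPow M α => cl S.τ V) := by (repeat' (with_reducible (first | exact IntF.id | exact IntF.fst' | exact IntF.snd' | exact IntF.const _ | exact Int.const _ | assumption | apply intF_cl | apply int_cld | apply int_dj | apply int_mt | apply Int.and | apply Int.or | apply Int.imp | apply Int.iff | apply Int.ne | apply Int.not | apply Int.all | apply Int.ex | apply Int.unique | apply Int.eq | apply Int.mem | apply Int.subset | apply Int.fin | apply Int.ltN | apply Int.leN | apply IntF.fst | apply IntF.snd | apply IntF.app | apply IntF.sep | apply IntF.lam | apply IntF.insert | apply IntF.singleton | apply IntF.union | apply IntF.inter | apply IntF.sdiff | apply IntF.isUnion | apply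 IntF.iimage | apply IntF.succ | apply IntF.ite | apply IntF.the | apply IntF.irec)))
  have hfin : IFin (iimage (fun V => cl S.τ V)
      (sep M fun U => U ∈ S.B (S.lev P C) ∧ Dj (cl S.τ U) C)) :=
    ((S.Bfin _).subset fun V hV => ((mem_sep hi).1 hV).1).image hcl
  have hD := S.cld_isUnion hfin fun D hD => by
    obtain ⟨V, _, rfl⟩ := (mem_iimage hcl).1 hD
    exact cld_cl V
  intro z hz hzC
  have h3 := cl_min (fun w hw => by
    obtain ⟨W, hW, hwW⟩ := mem_isUnion.1 (mem_inter.1 hw).2
    exact mem_isUnion.2 ⟨cl S.τ W, (mem_iimage hcl).2 ⟨W, hW, rfl⟩, subset_cl W w hwW⟩) hD z hz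
  obtain ⟨D, hD', hzD⟩ := mem_isUnion.1 h3
  obtain ⟨W, hW, rfl⟩ := (mem_iimage hcl).1 hD'
  exact ((mem_sep hi).1 hW).2 z hzD hzC

variable (S)

/-- The first half of a perfect set. -/
noncomputable def sp0 (P : IPow M α) : IPow M α := S.avoid P (S.f P)

/-- The second half of a perfect set. -/
noncomputable def sp1 (P : IPow M α) : IPow M α := S.avoid P (S.sp0 P)

theorem intF_sp0 {s : γ → IPow M α} (hs : IntF M s) : IntF M (fun c => S.sp0 (s c)) := by
  unfold sp0
  (repeat' (with_reducible (first | exact IntF.id | exact IntF.fst' | exact IntF.snd' | exact IntF.const _ | exact Int.const _ | assumption | apply intF_avoid | apply intF_cl | apply int_cld | apply int_dj | apply int_mt | apply Int.and | apply Int.or | apply Int.imp | apply Int.iff | apply Int.ne | apply Int.not | apply Int.all | apply Int.ex | apply Int.unique | apply Int.eq | apply Int.mem | apply Int.subset | apply Int.fin | apply Int.ltN | apply Int.leN | apply IntF.fst | apply IntF.snd | apply IntF.app | apply IntF.sep | apply IntF.lam | apply IntF.insert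 | apply IntF.singleton | apply IntF.union | apply IntF.inter | apply IntF.sdiff | apply IntF.isUnion | apply IntF.iimage | apply IntF.succ | apply IntF.ite | apply IntF.the | apply IntF.irec)))

theorem intF_sp1 {s : γ → IPow M α} (hs : IntF M s) : IntF M (fun c => S.sp1 (s c)) := by
  unfold sp1
  (repeat' (with_reducible (first | exact IntF.id | exact IntF.fst' | exact IntF.snd' | exact IntF.const _ | exact Int.const _ | assumption | apply intF_avoid | apply intF_sp0 | apply intF_cl | apply int_cld | apply int_dj | apply int_mt | apply Int.and | apply Int.or | apply Int.imp | apply Int.iff | apply Int.ne | apply Int.not | apply Int.all | apply Int.ex | apply Int.unique | apply Int.eq | apply Int.mem | apply Int.subset | apply Int.fin | apply Int.ltN | apply Int.leN | apply IntF.fst | apply IntF.snd | apply IntF.app | apply IntF.sep | apply IntF.lam | apply IntF.insert | apply IntF.singleton | apply IntF.union | apply IntF.inter | apply IntF.sdiff | apply IntF.isUnion | apply IntF.iimage | apply IntF.succ | apply IntF.ite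 | apply IntF.the | apply IntF.irec)))

variable {S}

theorem Perf.sp0 {P : IPow M α} (hP : S.Perf P) :
    S.Perf (S.sp0 P) ∧ S.sp0 P ⊆ P ∧ Dj (S.sp0 P) (S.f P) := by
  obtain ⟨h1, _, _⟩ := S.fspec P hP.1 hP.2.1
  exact hP.avoid (S.cld_fin h1) (hP.not_fin h1)

theorem Perf.sp1 {P : IPow M α} (hP : S.Perf P) :
    S.Perf (S.sp1 P) ∧ S.sp1 P ⊆ P ∧ Dj (S.sp1 P) (S.sp0 P) := by
  obtain ⟨_, ⟨x, h2⟩, h3⟩ := S.fspec P hP.1 hP.2.1
  exact hP.avoid hP.sp0.1.1 ⟨x, h3 x h2, fun h => hP.sp0.2.2 x h h2⟩

end Sp

end Pool.Agent.H35Z.Cuf
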