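import Pool.Agent.H35Z.Cuf.Top

/-!
# A fixed point principle for families with a choice function (after Zermelo)
-/

set_option linter.unreachableTactic false
set_option linter.unusedTactic false
set_option linter.unusedVariables false
set_option linter.unusedSectionVars false

namespace Pool.Agent.H35Z.Cuf

open FirstOrder FirstOrder.Language Pool.Agent.Helper672.ZFA

universe u

variable {M : Type u} [L.Structure M] [hM : IsModel M]
variable {Y : Type u} [ITy M Y] {γ : Type u} [ITy M γ]

/-- The Bourbaki-Witt theorem for increasing maps. -/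
theorem bw_up {F : IPow M Y → IPow M Y} (hF : IntF M F) {Q : IPow M Y → Prop}
    (hQ : Int M Q) (h0 : Q ∅) (hFQ : ∀ s, Q s → Q (F s) ∧ s ⊆ F s)
    (hchain : ∀ C : IPow M (IPow M Y), (∀ s, s ∈ C → Q s) → IsChn C → Q (isUnion C)) :
    ∃ s, Q s ∧ F s = s := by
  have cc : ∀ s : IPow M Y, iuniv M Y \ (iuniv M Y \ s) = s := fun s =>
    IPow.ext' fun x => by simp
  have hc : IntF M (fun s : IPow M Y => iuniv M Y \ s) := by (repeat' (with_reducible (first | exact IntF.id | exact IntF.fst' | exact IntF.snd' | exact IntF.const _ | exact Int.const _ | assumption | apply Int.and | apply Int.or | apply Int.imp | apply Int.iff | apply Int.ne | apply Int.not | apply Int.all | apply Int.ex | apply Int.unique | apply Int.eq | apply Int.mem | apply Int.subset | apply Int.fin | apply Int.ltN | apply Int.leN | apply IntF.fst | apply IntF.snd | apply IntF.app | apply IntF.sep | apply IntF.lam | apply IntF.insert | apply IntF.singleton | apply IntF.union | apply IntF.inter | apply IntF.sdiff | apply IntF.isUnion | apply IntF.iimage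 | apply IntF.succ | apply IntF.ite | apply IntF.the | apply IntF.irec)))
  obtain ⟨s, h1, h2⟩ := bourbaki_witt (F := fun s => iuniv M Y \ F (iuniv M Y \ s))
    (by (repeat' (with_reducible (first | exact IntF.id | exact IntF.fst' | exact IntF.snd' | exact IntF.const _ | exact Int.const _ | assumption | apply IntF.comp hF | apply Int.and | apply Int.or | apply Int.imp | apply Int.iff | apply Int.ne | apply Int.not | apply Int.all | apply Int.ex | apply Int.unique | apply Int.eq | apply Int.mem | apply Int.subset | apply Int.fin | apply Int.ltN | apply Int.leN | apply IntF.fst | apply IntF.snd | apply IntF.app | apply IntF.sep | apply IntF.lam | apply IntF.insert | apply IntF.singleton | apply IntF.union | apply IntF.inter | apply IntF.sdiff | apply IntF.isUnion | apply IntF.iimage | apply IntF.succ | apply IntF.ite | apply IntF.the | apply IntF.irec)))) (Q := fun s => Q (iuniv M Y \ s)) (by (repeat' (with_reducible (first | exact IntF.id | exact IntF.fst' | exact IntF.snd' | exact IntF.const _ | exact Int.const _ |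 assumption | apply Int.comp hQ | apply Int.and | apply Int.or | apply Int.imp | apply Int.iff | apply Int.ne | apply Int.not | apply Int.all | apply Int.ex | apply Int.unique | apply Int.eq | apply Int.mem | apply Int.subset | apply Int.fin | apply Int.ltN | apply Int.leN | apply IntF.fst | apply IntF.snd | apply IntF.app | apply IntF.sep | apply IntF.lam | apply IntF.insert | apply IntF.singleton | apply IntF.union | apply IntF.inter | apply IntF.sdiff | apply IntF.isUnion | apply IntF.iimage | apply IntF.succ | apply IntF.ite | apply IntF.the | apply IntF.irec))))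
    (top := iuniv M Y) (by
      have : iuniv M Y \ iuniv M Y = ∅ := IPow.ext' fun x => by simp
      simp only [this]
      exact h0) (fun s hs => by
      simp only [cc]
      refine ⟨(hFQ _ hs).1, fun x hx => ?_⟩
      by_contra h
      exact (mem_sdiff.1 hx).2 ((hFQ _ hs).2 x (by simpa using h))) (fun C _ hC hch => by
      have h3 : iuniv M Y \ isInter C = isUnion (iimage (fun s => iuniv M Y \ s) C) := by
        refine IPow.ext' fun x => ?_
        rw [mem_sdiff, mem_isInter, mem_isUnion]
        constructor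
        · rintro ⟨-, h⟩
          push Not at h
          obtain ⟨s, hs, hx⟩ := h
          exact ⟨_, (mem_iimage hc).2 ⟨s, hs, rfl⟩, by simpa using hx⟩
        · rintro ⟨t, ht, hx⟩
          obtain ⟨s, hs, rfl⟩ := (mem_iimage hc).1 ht
          exact ⟨by simp, fun h => (mem_sdiff.1 hx).2 (h s hs)⟩
      simp only [h3]
      refine hchain _ (fun t ht => ?_) fun t t' ht ht' => ?_
      · obtain ⟨s, hs, rfl⟩ := (mem_iimage hc).1 ht
        exact hC s hs
      · obtain ⟨s, hs, rfl⟩ := (mem_iimage hc).1 ht
        obtain ⟨s', hs', rfl⟩ := (mem_iimage hc).1 ht'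
        rcases hch s s' hs hs' with h | h
        · refine Or.inr fun x hx => ?_
          rw [mem_sdiff] at hx ⊢
          exact ⟨hx.1, fun h' => hx.2 (h x h')⟩
        · refine Or.inl fun x hx => ?_
          rw [mem_sdiff] at hx ⊢
          exact ⟨hx.1, fun h' => hx.2 (h x h')⟩)
  refine ⟨iuniv M Y \ s, h1, ?_⟩
  have h3 := congrArg (fun t => iuniv M Y \ t) h2
  simpa only [cc] using h3

/-- The field of a code. -/
noncomputable def dm (s : IPow M (Y × IPow M Y)) : IPow M Y := sep M fun x => ∃ I, (x, I) ∈ s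

theorem mem_dm {s : IPow M (Y × IPow M Y)} {x : Y} : x ∈ dm s ↔ ∃ I, (x, I) ∈ s := by
  unfold dm
  rw [mem_sep (by (repeat' (with_reducible (first | exact IntF.id | exact IntF.fst' | exact IntF.snd' | exact IntF.const _ | exact Int.const _ | assumption | apply Int.and | apply Int.or | apply Int.imp | apply Int.iff | apply Int.ne | apply Int.not | apply Int.all | apply Int.ex | apply Int.unique | apply Int.eq | apply Int.mem | apply Int.subset | apply Int.fin | apply Int.ltN | apply Int.leN | apply IntF.fst | apply IntF.snd | apply IntF.app | apply IntF.sep | apply IntF.lam | apply IntF.insert | apply IntF.singleton | apply IntF.union | apply IntF.inter | apply IntF.sdiff | apply IntF.isUnion | apply IntF.iimage | apply IntF.succ | apply IntF.ite | apply IntF.the | apply IntF.irec | apply IntF.pair))))]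

theorem intF_dm {s : γ → IPow M (Y × IPow M Y)} (hs : IntF M s) : IntF M (fun c => dm (s c)) := by
  unfold dm
  (repeat' (with_reducible (first | exact IntF.id | exact IntF.fst' | exact IntF.snd' | exact IntF.const _ | exact Int.const _ | assumption | apply IntF.comp hs | apply Int.and | apply Int.or | apply Int.imp | apply Int.iff | apply Int.ne | apply Int.not | apply Int.all | apply Int.ex | apply Int.unique | apply Int.eq | apply Int.mem | apply Int.subset | apply Int.fin | apply Int.ltN | apply Int.leN | apply IntF.fst | apply IntF.snd | apply IntF.app | apply IntF.sep | apply IntF.lam | apply IntF.insert | apply IntF.singleton | apply IntF.union | apply IntF.inter | apply IntF.sdiff | apply IntF.isUnion | apply IntF.iimage | apply IntF.succ | apply IntF.ite | apply IntF.the | apply IntF.irec | apply IntF.pair)))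

/-- The order of a code. -/
def clt (s : IPow M (Y × IPow M Y)) (x y : Y) : Prop := ∃ I, (y, I) ∈ s ∧ x ∈ I

theorem int_clt {s : γ → IPow M (Y × IPow M Y)} {x y : γ → Y} (hs : IntF M s) (hx : IntF M x)
    (hy : IntF M y) : Int M (fun c => clt (s c) (x c) (y c)) := by
  unfold clt
  (repeat' (with_reducible (first | exact IntF.id | exact IntF.fst' | exact IntF.snd' | exact IntF.const _ | exact Int.const _ | assumption | apply IntF.comp hs | apply IntF.comp hx | apply IntF.comp hy | apply Int.and | apply Int.or | apply Int.imp | apply Int.iff | apply Int.ne | apply Int.not | apply Int.all | apply Int.ex | apply Int.unique | apply Int.eq | apply Int.mem | apply Int.subset | apply Int.fin | apply Int.ltN | apply Int.leN | apply IntF.fst | apply IntF.snd | apply IntF.app | apply IntF.sep | apply IntF.lam | apply IntF.insert | apply IntF.singleton | apply IntF.union | apply IntF.inter | apply IntF.sdiff | apply IntF.isUnion | apply IntF.iimage | apply IntF.succ | apply IntF.ite | apply IntF.the | apply IntF.irec | apply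 IntF.pair)))

/-- Codes of well-orders: each point is recorded with its set of predecessors. -/
def Code (s : IPow M (Y × IPow M Y)) : Prop :=
  (∀ x I J, (x, I) ∈ s → (x, J) ∈ s → I = J) ∧ (∀ x I, (x, I) ∈ s → I ⊆ dm s) ∧
  (∀ E : IPow M Y, (∃ x, x ∈ E ∧ x ∈ dm s) →
    ∃ m, m ∈ E ∧ m ∈ dm s ∧ ∀ y, y ∈ E → ¬ clt s y m) ∧
  ∀ x y, x ∈ dm s → y ∈ dm s → x = y ∨ clt s x y ∨ clt s y x

theorem int_code {s : γ → IPow M (Y × IPow M Y)} (hs : IntF M s) :
    Int M (fun c => Code (s c)) := by
  unfold Code
  (repeat' (with_reducible (first | exact IntF.id | exact IntF.fst' | exact IntF.snd' | exact IntF.const _ | exact Int.const _ | assumption | apply IntF.comp hs | apply intF_dm | apply int_clt | apply Int.and | apply Int.or | apply Int.imp | apply Int.iff | apply Int.ne | apply Int.not | apply Int.all | apply Int.ex | apply Int.unique | apply Int.eq | apply Int.mem | apply Int.subset | apply Int.fin | apply Int.ltN | apply Int.leN | apply IntF.fst | apply IntF.snd | apply IntF.app | apply IntF.sep | apply IntF.lam | apply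 IntF.insert | apply IntF.singleton | apply IntF.union | apply IntF.inter | apply IntF.sdiff | apply IntF.isUnion | apply IntF.iimage | apply IntF.succ | apply IntF.ite | apply IntF.the | apply IntF.irec | apply IntF.pair)))

/-- The least element. -/
noncomputable def least (d : Y) (s : IPow M (Y × IPow M Y)) (E : IPow M Y) : Y :=
  the (fun m => m ∈ E ∧ m ∈ dm s ∧ ∀ y, y ∈ E → ¬ clt s y m) d

theorem intF_least (d : Y) {s : γ → IPow M (Y × IPow M Y)} {E : γ → IPow M Y} (hs : IntF M s)
    (hE : IntF M E) : IntF M (fun c => least d (s c) (E c)) := by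
  unfold least
  (repeat' (with_reducible (first | exact IntF.id | exact IntF.fst' | exact IntF.snd' | exact IntF.const _ | exact Int.const _ | assumption | apply IntF.comp hs | apply IntF.comp hE | apply intF_dm | apply int_clt | apply Int.and | apply Int.or | apply Int.imp | apply Int.iff | apply Int.ne | apply Int.not | apply Int.all | apply Int.ex | apply Int.unique | apply Int.eq | apply Int.mem | apply Int.subset | apply Int.fin | apply Int.ltN | apply Int.leN | apply IntF.fst | apply IntF.snd | apply IntF.app | apply IntF.sep | apply IntF.lam | apply IntF.insert | apply IntF.singleton | apply IntF.union | apply IntF.inter | apply IntF.sdiff | apply IntF.isUnion | apply IntF.iimage | apply IntF.succ | apply IntF.ite | apply IntF.the | apply IntF.irec)))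

theorem Code.least {s : IPow M (Y × IPow M Y)} (h : Code s) (d : Y) {E : IPow M Y}
    (hE : ∃ x, x ∈ E ∧ x ∈ dm s) : least d s E ∈ E ∧ least d s E ∈ dm s := by
  obtain ⟨m, h1, h2, h3⟩ := h.2.2.1 E hE
  have h4 : ∃! m, m ∈ E ∧ m ∈ dm s ∧ ∀ y, y ∈ E → ¬ clt s y m := by
    refine ⟨m, ⟨h1, h2, h3⟩, fun m' hm' => ?_⟩
    rcases h.2.2.2 m' m hm'.2.1 h2 with h5 | h5 | h5
    · exact h5
    · exact absurd h5 (h3 m' hm'.1)
    · exact absurd h5 (hm'.2.2 m h1)
  exact ⟨(the_spec h4).1, (the_spec h4).2.1⟩

theorem dm_mono {s t : IPow M (Y × IPow M Y)} (h : s ⊆ t) : dm s ⊆ dm t := fun x hx => by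
  obtain ⟨I, hI⟩ := mem_dm.1 hx
  exact mem_dm.2 ⟨I, h _ hI⟩

theorem clt_mono {s t : IPow M (Y × IPow M Y)} (h : s ⊆ t) {x y : Y} (h1 : clt s x y) :
    clt t x y := by
  obtain ⟨I, hI, hx⟩ := h1
  exact ⟨I, h _ hI, hx⟩

theorem code_empty : Code (∅ : IPow M (Y × IPow M Y)) := by
  refine ⟨fun x I J h => by simp at h, fun x I h => by simp at h, ?_, fun x y h => ?_⟩
  · rintro E ⟨x, -, h⟩
    simp [mem_dm] at h
  · simp [mem_dm] at h

theorem mem_dm_insert {s : IPow M (Y × IPow M Y)} {g x : Y} {I : IPow M Y} :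
    x ∈ dm (insert (g, I) s) ↔ x = g ∨ x ∈ dm s := by
  rw [mem_dm, mem_dm]
  constructor
  · rintro ⟨J, hJ⟩
    rcases mem_insert.1 hJ with h | h
    · exact Or.inl (Prod.ext_iff.1 h).1
    · exact Or.inr ⟨J, h⟩
  · rintro (rfl | ⟨J, h⟩)
    · exact ⟨I, by simp⟩
    · exact ⟨J, mem_insert.2 (Or.inr h)⟩

theorem Code.insert {s : IPow M (Y × IPow M Y)} (h : Code s) {g : Y} (hg : ¬ g ∈ dm s) :
    Code (insert (g, dm s) s) := by
  have hsub : s ⊆ Insert.insert (g, dm s) s := fun q hq => mem_insert.2 (Or.inr hq)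
  refine ⟨fun x I J hI hJ => ?_, fun x I hI => ?_, ?_, fun x y hx hy => ?_⟩
  · rcases mem_insert.1 hI with hI' | hI' <;> rcases mem_insert.1 hJ with hJ' | hJ'
    · exact (Prod.ext_iff.1 hI').2.trans (Prod.ext_iff.1 hJ').2.symm
    · obtain rfl : x = g := (Prod.ext_iff.1 hI').1
      exact absurd (mem_dm.2 ⟨J, hJ'⟩ : x ∈ dm s) hg
    · obtain rfl : x = g := (Prod.ext_iff.1 hJ').1
      exact absurd (mem_dm.2 ⟨I, hI'⟩ : x ∈ dm s) hg
    · exact h.1 x I J hI' hJ'
  · rcases mem_insert.1 hI with hI | hI
    · obtain rfl : I = dm s := (Prod.ext_iff.1 hI).2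
      exact dm_mono hsub
    · exact fun z hz => dm_mono hsub z (h.2.1 x I hI z hz)
  · rintro E ⟨x, hxE, hx⟩
    by_cases h1 : ∃ x, x ∈ E ∧ x ∈ dm s
    · obtain ⟨m, h2, h3, h4⟩ := h.2.2.1 E h1
      refine ⟨m, h2, dm_mono hsub m h3, fun y hy ⟨I, hI, hyI⟩ => ?_⟩
      rcases mem_insert.1 hI with hI | hI
      · obtain rfl : m = g := (Prod.ext_iff.1 hI).1
        exact hg h3
      · exact h4 y hy ⟨I, hI, hyI⟩
    · refine ⟨x, hxE, hx, fun y hy ⟨I, hI, hyI⟩ => ?_⟩
      rcases mem_insert.1 hI with hI | hI
      · obtain rfl : I = dm s := (Prod.ext_iff.1 hI).2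
        exact h1 ⟨y, hy, hyI⟩
      · exact h1 ⟨y, hy, h.2.1 x I hI y hyI⟩
  · rcases mem_dm_insert.1 hx with hx | hx <;> rcases mem_dm_insert.1 hy with hy | hy
    · exact Or.inl (hx.trans hy.symm)
    · exact Or.inr (Or.inr ⟨dm s, by simp [hx], hy⟩)
    · exact Or.inr (Or.inl ⟨dm s, by simp [hy], hx⟩)
    · rcases h.2.2.2 x y hx hy with h1 | h1 | h1
      · exact Or.inl h1
      · exact Or.inr (Or.inl (clt_mono hsub h1))
      · exact Or.inr (Or.inr (clt_mono hsub h1))

theorem mem_dm_isUnion {C : IPow M (IPow M (Y × IPow M Y))} {x : Y} :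
    x ∈ dm (isUnion C) ↔ ∃ s, s ∈ C ∧ x ∈ dm s := by
  rw [mem_dm]
  constructor
  · rintro ⟨I, hI⟩
    obtain ⟨s, hs, h⟩ := mem_isUnion.1 hI
    exact ⟨s, hs, mem_dm.2 ⟨I, h⟩⟩
  · rintro ⟨s, hs, h⟩
    obtain ⟨I, hI⟩ := mem_dm.1 h
    exact ⟨I, mem_isUnion.2 ⟨s, hs, hI⟩⟩

theorem code_isUnion {C : IPow M (IPow M (Y × IPow M Y))} (h : ∀ s, s ∈ C → Code s)
    (hch : IsChn C) : Code (isUnion C) := by
  have hsub : ∀ s, s ∈ C → s ⊆ isUnion C := fun s hs q hq => mem_isUnion.2 ⟨s, hs, hq⟩
  have hfun : ∀ x I J, (x, I) ∈ isUnion C → (x, J) ∈ isUnion C → I = J := by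
    intro x I J hI hJ
    obtain ⟨s, hs, hI⟩ := mem_isUnion.1 hI
    obtain ⟨t, ht, hJ⟩ := mem_isUnion.1 hJ
    rcases hch s t hs ht with h1 | h1
    · exact (h t ht).1 x I J (h1 _ hI) hJ
    · exact (h s hs).1 x I J hI (h1 _ hJ)
  refine ⟨hfun, fun x I hI => ?_, ?_, fun x y hx hy => ?_⟩
  · obtain ⟨s, hs, hI⟩ := mem_isUnion.1 hI
    exact fun z hz => dm_mono (hsub s hs) z ((h s hs).2.1 x I hI z hz)
  · rintro E ⟨x, hxE, hx⟩
    obtain ⟨s, hs, hx⟩ := mem_dm_isUnion.1 hx
    obtain ⟨m, h1, h2, h3⟩ := (h s hs).2.2.1 E ⟨x, hxE, hx⟩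
    refine ⟨m, h1, dm_mono (hsub s hs) m h2, fun y hy ⟨I, hI, hyI⟩ => ?_⟩
    obtain ⟨J, hJ⟩ := mem_dm.1 h2
    obtain rfl : I = J := hfun m I J hI (hsub s hs _ hJ)
    exact h3 y hy ⟨I, hJ, hyI⟩
  · obtain ⟨s, hs, hx⟩ := mem_dm_isUnion.1 hx
    obtain ⟨t, ht, hy⟩ := mem_dm_isUnion.1 hy
    rcases hch s t hs ht with h1 | h1
    · rcases (h t ht).2.2.2 x y (dm_mono h1 x hx) hy with h2 | h2 | h2
      · exact Or.inl h2
      · exact Or.inr (Or.inl (clt_mono (hsub t ht) h2))
      · exact Or.inr (Or.inr (clt_mono (hsub t ht) h2))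
    · rcases (h s hs).2.2.2 x y hx (dm_mono h1 y hy) with h2 | h2 | h2
      · exact Or.inl h2
      · exact Or.inr (Or.inl (clt_mono (hsub s hs) h2))
      · exact Or.inr (Or.inr (clt_mono (hsub s hs) h2))

/-- `c` is a choice function for `D`. -/
def Ch (D : IPow M Y) (c : IFun M (IPow M Y) Y) : Prop :=
  ∀ E, (∃ x, x ∈ E ∧ x ∈ D) → c E ∈ E ∧ c E ∈ D

/-- The fixed point principle. -/
theorem zermelo (d : Y) {G : IPow M Y × IFun M (IPow M Y) Y → Y} (hG : IntF M G) {Q : Y → Prop}
    (hQ : Int M Q) (h : ∀ D c, (∀ x, x ∈ D → Q x) → Ch D c → Q (G (D, c))) :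
    ∃ D c, (∀ x, x ∈ D → Q x) ∧ Ch D c ∧ G (D, c) ∈ D := by
  by_contra hcon
  push Not at hcon
  have hl : IntF M (fun q : IPow M (Y × IPow M Y) × IPow M Y => least d q.1 q.2) := by
    (repeat' (with_reducible (first | exact IntF.id | exact IntF.fst' | exact IntF.snd' | exact IntF.const _ | exact Int.const _ | assumption | apply intF_least | apply Int.and | apply Int.or | apply Int.imp | apply Int.iff | apply Int.ne | apply Int.not | apply Int.all | apply Int.ex | apply Int.unique | apply Int.eq | apply Int.mem | apply Int.subset | apply Int.fin | apply Int.ltN | apply Int.leN | apply IntF.fst | apply IntF.snd | apply IntF.app | apply IntF.sep | apply IntF.lam | apply IntF.insert | apply IntF.singleton | apply IntF.union | apply IntF.inter | apply IntF.sdiff | apply IntF.isUnion | apply IntF.iimage | apply IntF.succ | apply IntF.ite | apply IntF.the | apply IntF.irec)))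
  have hch : ∀ s : IPow M (Y × IPow M Y), Code s → Ch (dm s) (lam M (least d s)) := by
    intro s hs E hE
    rw [lam_apply (hl.slice s)]
    exact hs.least d hE
  have hg : IntF M (fun s : IPow M (Y × IPow M Y) => G (dm s, lam M (least d s))) := by
    refine IntF.comp hG (IntF.pair (intF_dm IntF.id) (IntF.lam hl))
  obtain ⟨s, ⟨h1, h2⟩, h3⟩ := bw_up
    (F := fun s : IPow M (Y × IPow M Y) => insert (G (dm s, lam M (least d s)), dm s) s)
    (IntF.insert (IntF.pair hg (intF_dm IntF.id)) IntF.id)
    (Q := fun s => Code s ∧ ∀ x, x ∈ dm s → Q x) (by (repeat' (with_reducible (first | exact IntF.id | exact IntF.fst' | exact IntF.snd' | exact IntF.const _ | exact Int.const _ | assumption | apply int_code | apply intF_dm | apply Int.comp hQ | apply Int.and | apply Int.or | apply Int.imp | apply Int.iff | apply Int.ne | apply Int.not | apply Int.all | apply Int.ex | apply Int.unique | apply Int.eq | apply Int.mem | apply Int.subset | apply Int.fin | apply Int.ltN | apply Int.leN | apply IntF.fst | apply IntF.snd | apply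 IntF.app | apply IntF.sep | apply IntF.lam | apply IntF.insert | apply IntF.singleton | apply IntF.union | apply IntF.inter | apply IntF.sdiff | apply IntF.isUnion | apply IntF.iimage | apply IntF.succ | apply IntF.ite | apply IntF.the | apply IntF.irec))))
    ⟨code_empty, fun x hx => by simp [mem_dm] at hx⟩ (fun s hs => by
      refine ⟨⟨hs.1.insert (hcon _ _ hs.2 (hch s hs.1)), fun x hx => ?_⟩,
        fun q hq => mem_insert.2 (Or.inr hq)⟩
      rcases mem_dm_insert.1 hx with rfl | hx
      · exact h _ _ hs.2 (hch s hs.1)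
      · exact hs.2 x hx) (fun C hC hc => ⟨code_isUnion (fun s hs => (hC s hs).1) hc, fun x hx => by
      obtain ⟨s, hs, hx⟩ := mem_dm_isUnion.1 hx
      exact (hC s hs).2 x hx⟩)
  refine hcon _ _ h2 (hch s h1) ?_
  have h4 : G (dm s, lam M (least d s)) ∈
      dm (insert (G (dm s, lam M (least d s)), dm s) s) := mem_dm_insert.2 (Or.inl rfl)
  rwa [h3] at h4

end Pool.Agent.H35Z.Cuf
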